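import Pool.Agent.H53.HV.LabG

/-!
# The chains of the two windows

`own_cap`: the chain of a good window with `c r` on the top, with the precision `Q` below the cap of
the system. `own_nr`: the same in an order which is greedy up to a slack for `c r`.
-/

set_option autoImplicit false

namespace Pool.JPN

open Finset Real MvPolynomial
open Pool.Agent.H49.Ent Pool.Agent.H32.Dense Pool.STK Pool.KA Pool.KSAT Pool.K2S Pool.PB Pool.S6C
open Pool.GEN
open Pool.LBT (ThrOf)
open Pool.LEV (Law)
open Pool.CHT (TmH chsys bet tau Up1 Rc Pts Csl)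
open Pool.FRN (Wgd UpA)

variable {m J : ℕ} {θ : ℝ} {S : PCl m} {P : List (Fin m) × Fin m → ℝ → ℝ → ℝ}

/-- **The chain of a good window**, with `c r` on the top, below the cap. -/
theorem own_cap {w Q : ℝ} {c : ℕ → Fin m} {r : ℕ} (hr1 : 1 ≤ r)
    (hinj : Set.InjOn c (Set.Iio (r + 1))) (hne : S.Ne) (hP : ThrOf (chsys m θ) S P)
    (hθ : 0 < θ) (hS : TmH S) (hw : 0 < w) (hw1 : w < 1) (hwd : w ∈ Wgd P)
    (hgre : ∀ i < r, ∀ l < i, bet P c l w w ≤ tau P c l i w w)
    (hsrt : ∀ l < r, bet P c l w w ≤ bet P c (r - 1) w w)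
    (hvis : ∀ l < r, bet P c l w w + θ * w < 1) (hd : ∀ i, Dn1 (P i) w) (hwQ : w ≤ Q)
    (hQ1 : Q + θ * w < 1) :
    ∃ D : ℕ, OwnS S c r w (fun l => bet P c l w w) (min (bet P c r w w) Q) (θ * w) D := by
  have hθw : 0 < θ * w := mul_pos hθ hw
  obtain ⟨f, hf⟩ : ∃ f : ℝ → ℝ, f = fun x => min (bet P c r x x) (Q - (w - x)) := ⟨_, rfl⟩
  have hfx : ∀ x, f x = min (bet P c r x x) (Q - (w - x)) := fun x => by rw [hf]
  have hfw : f w = min (bet P c r w w) Q := by rw [hfx, sub_self, sub_zero]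
  obtain ⟨V, o₁, ho₁, hV⟩ := hd ((List.range r).map c, c r)
  have hbmon : ∀ l x, 0 < x → x ≤ w → bet P c l x x ≤ bet P c l w w := by
    intro l x hx hxw
    exact (hP.law _).mono hx.le le_rfl hxw hxw le_rfl hw1.le
  obtain ⟨μ, hμ⟩ : ∃ μ : ℝ, μ = max (f w) (bet P c (r - 1) w w) := ⟨_, rfl⟩
  have hμ1 : f w ≤ μ := by rw [hμ]; exact le_max_left _ _
  have hμ2 : bet P c (r - 1) w w ≤ μ := by rw [hμ]; exact le_max_right _ _
  have hμ3 : μ + θ * w < 1 := by
    rw [hμ, hfw]
    rcases max_choice (min (bet P c r w w) Q) (bet P c (r - 1) w w) with h | h <;> rw [h]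
    · have := min_le_right (bet P c r w w) Q
      linarith
    · exact hvis (r - 1) (by omega)
  obtain ⟨D, hD⟩ := own_g (f := f) (sg := θ * w + μ) (o₁ := o₁) (V₁ := max V 1) hr1 hinj hne hP
    hθ hS hw hw1 hwd hgre hvis hd ho₁ (fun x hx hxw => by
      rw [hfx]
      refine le_min (hP.low _ x x hx.le le_rfl (by linarith)) (by linarith)) (by
      rw [hfw]
      have := min_le_right (bet P c r w w) Q
      linarith) (fun x y hx hxy hy => by
      rw [hfx, hfx]
      have h1 := law_up (hP.law ((List.range r).map c, c r)) hx.le hxy (by linarith)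
      have h2 : min 1 (bet P c r x x + (y - x)) ≤ bet P c r y y := h1
      have h3 := min_le_right (bet P c r x x) (Q - (w - x))
      have h4 := min_le_left (bet P c r x x) (Q - (w - x))
      refine le_min ?_ (by linarith)
      rcases min_le_iff.1 h2 with h5 | h5
      · linarith
      · linarith) (fun o ho ho' => by
      rw [hfx, hfx]
      have h1 : bet P c r w w ≤ bet P c r (w - o) (w - o) + V * o := hV o ho ho'
      have h2 := mul_le_mul_of_nonneg_right (le_max_left V 1) ho
      have h3 := mul_le_mul_of_nonneg_right (le_max_right V 1) ho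
      rw [← min_add_add_right]
      exact min_le_min (by linarith) (by linarith)) (fun x hx hx0 _ hxw => by
      have hup : UpA P x x := Wgd.self hx (by linarith)
      have hθx := mul_le_mul_of_nonneg_left hxw hθ.le
      have h3 : f x ≤ f w := by
        rw [hfx, hfw]
        exact min_le_min (hbmon r x hx0 hxw) (by linarith)
      have h4 : f x ≤ Q := by
        rw [hfx]
        have := min_le_right (bet P c r x x) (Q - (w - x))
        linarith
      refine tgp_cap hP hθ hS hinj hx0 (by linarith)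
        (fun j hj => hup.rc (by linarith) c j j) (fun j hj => ?_) (by
          rw [hfx]
          exact le_min (hP.low _ x x hx0.le le_rfl (by linarith)) (by linarith)) (by
          rw [hfx]
          exact min_le_left _ _) (by linarith) (fun j hj => ?_) (by linarith)
      · have := hbmon j x hx0 hxw
        linarith [hvis j hj]
      · have h5 := hbmon j x hx0 hxw
        have h6 := hsrt j hj
        linarith) (by linarith) (by linarith) (by linarith)
  refine ⟨D, ?_⟩
  intro ε hε
  obtain ⟨K₁, hK₁, hb⟩ := hD ε hε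
  refine ⟨K₁, hK₁, hb.mono 0 ?_⟩
  rintro J - F A ⟨B, e, E, g, G, H, h1, h2, h3, h4, h5, h6, h7, h8⟩
  rw [← hμ, add_sub_cancel_right] at h4
  rw [hfw] at h6
  exact ⟨B, e, E, g, G, H, h1, h2, h3, h4, h5, h6, h7, h8⟩

/-- **The chain of a good window**, with `c r` on the top, in an order which is greedy up to the
slack `vs` for `c r`. -/
theorem own_nr {w vs e : ℝ} {c : ℕ → Fin m} {r : ℕ} (hr1 : 1 ≤ r)
    (hinj : Set.InjOn c (Set.Iio (r + 1))) (hne : S.Ne) (hP : ThrOf (chsys m θ) S P)
    (hθ : 0 < θ) (hS : TmH S) (hw : 0 < w) (hw1 : w < 1) (hwd : w ∈ Wgd P)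
    (hgre : ∀ i < r, ∀ l < i, bet P c l w w ≤ tau P c l i w w)
    (hgrr : ∀ l < r, bet P c l w w ≤ tau P c l r w w + vs)
    (hsrt : ∀ l < r, bet P c l w w ≤ bet P c (r - 1) w w)
    (hvis : ∀ l < r + 1, bet P c l w w + θ * w < 1) (hd : ∀ i, Dn1 (P i) w) (hvs : 0 ≤ vs)
    (he : Csl (r + 1) (r + 1) * vs < e) (heθ : e + 2 * vs < θ * w) :
    ∃ D : ℕ, OwnS S c r w (fun l => bet P c l w w) (bet P c r w w) e D := by
  have hθw : 0 < θ * w := mul_pos hθ hw
  have hCs : (0 : ℝ) ≤ Csl (r + 1) (r + 1) := Nat.cast_nonneg _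
  have he0 : 0 < e := lt_of_le_of_lt (mul_nonneg hCs hvs) he
  obtain ⟨V, o₂, hV0, ho₂, hVt⟩ := dn_fin (f := fun y : ℕ × ℕ => tau P c y.1 y.2) (w := w)
    (range (r + 1) ×ˢ range (r + 1)) (fun x _ => hd _)
  have hVl : ∀ l < r + 1, ∀ i < r + 1, ∀ o, 0 ≤ o → o ≤ o₂ →
      tau P c l i w w ≤ tau P c l i (w - o) (w - o) + V * o := fun l hl i hi o ho ho' =>
    hVt (l, i) (by
      rw [Finset.mem_product, Finset.mem_range, Finset.mem_range]
      exact ⟨hl, hi⟩) o ho ho'
  have hbmon : ∀ l x, 0 < x → x ≤ w → bet P c l x x ≤ bet P c l w w := by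
    intro l x hx hxw
    exact (hP.law _).mono hx.le le_rfl hxw hxw le_rfl hw1.le
  -- the radius
  obtain ⟨a, ha⟩ : ∃ a : ℝ, a = min (e - Csl (r + 1) (r + 1) * vs) (θ * w - (e + 2 * vs)) :=
    ⟨_, rfl⟩
  have ha0 : 0 < a := by rw [ha]; exact lt_min (by linarith) (by linarith)
  have ha1 : Csl (r + 1) (r + 1) * vs + a ≤ e := by
    have := min_le_left (e - Csl (r + 1) (r + 1) * vs) (θ * w - (e + 2 * vs))
    rw [← ha] at this
    linarith
  have ha2 : e + 2 * vs + a ≤ θ * w := by
    have := min_le_right (e - Csl (r + 1) (r + 1) * vs) (θ * w - (e + 2 * vs))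
    rw [← ha] at this
    linarith
  obtain ⟨M, hM⟩ : ∃ M : ℝ, M = 2 * ((Csl (r + 1) (r + 1) + 2) * (V + 1) + θ + 1) := ⟨_, rfl⟩
  have hM0 : 0 < M := by rw [hM]; positivity
  obtain ⟨o₁, ho₁⟩ : ∃ o₁ : ℝ, o₁ = min o₂ (a / M) := ⟨_, rfl⟩
  have ho₁0 : 0 < o₁ := by rw [ho₁]; exact lt_min ho₂ (by positivity)
  have ho₁2 : o₁ ≤ o₂ := by rw [ho₁]; exact min_le_left _ _
  have ho₁M : o₁ * M ≤ a := by
    have h1 : o₁ ≤ a / M := by rw [ho₁]; exact min_le_right _ _
    rwa [le_div_iff₀ hM0] at h1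
  have hMe : o₁ * M = 2 * (Csl (r + 1) (r + 1) * (V * o₁)) + 2 * (Csl (r + 1) (r + 1) * o₁) +
      4 * (V * o₁) + 4 * o₁ + 2 * (θ * o₁) + 2 * o₁ := by
    rw [hM]
    ring
  have hVo : 0 ≤ V * o₁ := mul_nonneg hV0 ho₁0.le
  have hCVo : 0 ≤ Csl (r + 1) (r + 1) * (V * o₁) := mul_nonneg hCs hVo
  have hCo : 0 ≤ Csl (r + 1) (r + 1) * o₁ := mul_nonneg hCs ho₁0.le
  have hθo : 0 ≤ θ * o₁ := mul_nonneg hθ.le ho₁0.le
  obtain ⟨μ, hμ⟩ : ∃ μ : ℝ, μ = max (bet P c r w w) (bet P c (r - 1) w w) := ⟨_, rfl⟩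
  have hμ1 : bet P c r w w ≤ μ := by rw [hμ]; exact le_max_left _ _
  have hμ2 : bet P c (r - 1) w w ≤ μ := by rw [hμ]; exact le_max_right _ _
  have hμ3 : μ + θ * w < 1 := by
    rw [hμ]
    rcases max_choice (bet P c r w w) (bet P c (r - 1) w w) with h | h <;> rw [h]
    · exact hvis r (by omega)
    · exact hvis (r - 1) (by omega)
  obtain ⟨D, hD⟩ := own_g (f := fun x => bet P c r x x) (sg := e + μ) (o₁ := o₁) (V₁ := V) hr1
    hinj hne hP hθ hS hw hw1 hwd hgre (fun l hl => hvis l (by omega)) hd ho₁0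
    (fun x hx hxw => hP.low _ x x hx.le le_rfl (by linarith))
    (hP.up _ w w hw.le le_rfl hw1.le) (fun x y hx hxy hy => by
      have h1 := law_up (hP.law ((List.range r).map c, c r)) hx.le hxy (by linarith)
      have h2 : min 1 (bet P c r x x + (y - x)) ≤ bet P c r y y := h1
      have h3 := hbmon r y (by linarith) hy
      have h4 := hvis r (by omega)
      show bet P c r x x + (y - x) ≤ bet P c r y y
      rcases min_le_iff.1 h2 with h5 | h5
      · linarith
      · exact h5) (fun o ho ho' => hVl r (by omega) r (by omega) o ho (ho'.trans ho₁2))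
    (fun x hx hx0 hxo hxw => by
      have hup : UpA P x x := Wgd.self hx (by linarith)
      have hox : 0 ≤ w - x := by linarith
      have hox' : w - x ≤ o₁ := by linarith
      have hVx : V * (w - x) ≤ V * o₁ := mul_le_mul_of_nonneg_left hox' hV0
      have hθx : θ * (w - x) ≤ θ * o₁ := mul_le_mul_of_nonneg_left hox' hθ.le
      have hθx' : θ * (w - x) = θ * w - θ * x := by ring
      have hθm : θ * x ≤ θ * w := mul_le_mul_of_nonneg_left hxw hθ.le
      have hxx : w - (w - x) = x := by ring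
      have hvis' : ∀ i < r + 1, bet P c i x x + θ * x < 1 := fun i hi => by
        have := hbmon i x hx0 hxw
        linarith [hvis i hi]
      have hpts : Pts S P θ c (r + 1) 1 (fun _ => x) (fun _ => x) (vs + V * o₁) e := by
        refine Pts.of_up hne hP hθ hS hinj (by linarith) he0.le (fun _ _ => hx0)
          (fun _ _ => le_rfl) (fun _ _ => by linarith) (fun _ _ => ?_)
          (fun _ _ i _ l _ => hup.rc (by linarith) c l i) (fun _ _ i _ => hup.up c i)
          (fun _ _ i hi => hvis' i hi) fun _ _ i hi l hl => ?_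
        · linarith
        · have h1 := hbmon l x hx0 hxw
          have h2 := hVl l (by omega) i hi (w - x) hox (hox'.trans ho₁2)
          rw [hxx] at h2
          rcases Nat.lt_or_ge i r with h3 | h3
          · have h4 := hgre i h3 l hl
            linarith
          · have e1 : i = r := by omega
            subst e1
            have h4 := hgrr l hl
            linarith
      refine tgp_near hP hθ hS hinj hx0 (by linarith) (by linarith) hpts (e := e) ?_ le_rfl
        fun j hj => ?_
      · have e1 : (Csl (r + 1) (r + 1) : ℝ) * (vs + V * o₁) =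
            Csl (r + 1) (r + 1) * vs + Csl (r + 1) (r + 1) * (V * o₁) := by ring
        rw [e1]
        linarith
      · have h5 := hbmon j x hx0 hxw
        rcases Nat.lt_or_ge j r with h6 | h6
        · have := hsrt j h6
          linarith
        · have e1 : j = r := by omega
          subst e1
          linarith) (by linarith) (by
      show bet P c r w w ≤ e + μ
      linarith) (by linarith)
  refine ⟨D, ?_⟩
  intro ε hε
  obtain ⟨K₁, hK₁, hb⟩ := hD ε hε
  refine ⟨K₁, hK₁, hb.mono 0 ?_⟩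
  rintro J - F A ⟨B, e', E, g, G, H, h1, h2, h3, h4, h5, h6, h7, h8⟩
  rw [← hμ, add_sub_cancel_right] at h4
  exact ⟨B, e', E, g, G, H, h1, h2, h3, h4, h5, h6, h7, h8⟩

end Pool.JPN
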