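import Pool.Agent.H53.HV.LabD
import Pool.Agent.H1.PLN.LabN

/-!
# The labels of a member, with the height, for an order which is nearly greedy at the first window

`mlab_nr`: the labels of one member, from an affine label of `c 0`, `c 1`, `c 2` at `w₀` and the
label of `c 0`, `c 1`, `c 2`, `c 3` at `w₁`. `labN_nr`: in a class. `labN_str`: from the thresholds:
the order is greedy at `w₁`, and greedy up to the slack `vs` for `c 2` at `w₀`.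
-/

set_option autoImplicit false

namespace Pool.JPN

open Finset Real MvPolynomial
open Pool.Agent.H49.Ent Pool.Agent.H32.Dense Pool.STK Pool.KA Pool.KSAT Pool.K2S Pool.PB
  Pool.STAT Pool.GEN Pool.S6C Pool.M3F Pool.CLO37
open Pool.CHT (bas_ev TmH tmH_of_reg chsys bet tau Pts Csl)
open Pool.PLA (LabA LabB lab_clsB jetB pe_two big_ex)
open Pool.PM (MNum)
open Pool.PM81 (MLab LabN)
open Pool.GEO (CsQ nlabW_mono)
open Pool.FLF (Fam.sub)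
open Pool.PLN (NumL numL_of lab_sub nlab_drop nlab_pair Nums Dat)
open Pool.LBT (ThrOf)
open Pool.FRN (Wgd UpA Gdy)
open Pool.ONE (tgs)
open Pool.TOP (T1c T2c)

variable {m J : ℕ}

/-- The conditions of the numbers; at `w0` the number of `c 2` has the weight `N.s0`. -/
structure NumR (N : MNum) : Prop where
  w0 : 0 < N.w0
  w01 : N.w0 < N.w1
  w1 : N.w1 < 1
  s : N.s = 0
  s0 : 0 ≤ N.s0
  gw : ∀ l < 3, N.w1 ≤ N.g l
  gw0 : ∀ l < 2, N.w0 ≤ N.g0 l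
  gs : ∀ l < 2, N.g l ≤ N.g 2
  gs0 : ∀ l < 2, N.g0 l < N.g0 2
  top : N.g 2 < 1
  gN : ∀ l < 3, N.g l < N.gN
  wN : N.w1 ≤ N.gN
  sN : 0 ≤ N.sN

/-- The numbers may be given by another function. -/
theorem AfW.cong {F : Fam m J} {c : ℕ → Fin m} {W sg K : ℕ} {β β' : ℕ → ℝ} {q δ : ℝ}
    {B : F.Ω → Prop} (h : AfW F c W sg K β q δ B) (hβ : ∀ l < 2, β' l = β l) :
    AfW F c W sg K β' q δ B := by
  obtain ⟨g, L, V, z, z', P, a, h1, h2, h3, h4, h5, h6, h7, h8, h9⟩ := h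
  exact ⟨g, L, V, z, z', P, a, h1, h2, fun l hl => by rw [hβ l hl]; exact h3 l hl, h4, h5, h6,
    h7, h8, h9⟩

/-- The conditions of the losses of one member. -/
structure LosR (N : MNum) (φ b δ δ1 : ℝ) (E J : ℕ) (C : ℝ) (kap : ℕ) : Prop where
  b0 : 0 ≤ b
  d0 : 0 ≤ δ
  bd : b + 3 * δ ≤ φ / 2
  kl : (b + 3 * δ) * J ≤ kap
  ku : (kap : ℝ) ≤ φ * J
  d11 : 3 * δ ≤ δ1
  top : N.g 2 + δ ≤ 1
  gN : ∀ l < 3, N.g l + 2 * δ ≤ N.gN
  g0 : ∀ l < 2, N.g0 l + 2 * δ ≤ N.g0 2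
  C1 : Real.log C ≤ φ / 4 * J
  Eb : E * b ≤ φ / 4
  dφ : δ ≤ φ / 4
  dJ : 1 ≤ δ * J

open Classical in
/-- **The labels of one member.** -/
theorem mlab_nr (K0 K1 Dq : ℕ) : ∃ (C : ℝ) (E : ℕ), 1 ≤ C ∧ ∀ {m J : ℕ} {N : MNum}
    {φ b δ δ1 : ℝ} {kap : ℕ} {F : Fam m J} {c : ℕ → Fin m} {B B' : F.Ω → Prop}
    {β1 : ℕ → ℝ} {ee1 : ℝ}
    {sh1 sh21 : ℕ} {e1 EN1 kk1 : ℕ}
    {ga1 gb1 g1 g1'' : ℕ → ℕ} {L1 L1'' R1 : ℝ} {V1 : Type} {z1 : PtT F → V1} {z1' : LnT F → V1}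
    {P1 P1' : V1 → ℕ → PN} {a1 : V1 → Fin 3 → ℝ} (Q : V1 → PN) (T : V1 → ℝ) (k : V1 → ℕ),
    NumR N → LosR N φ b δ δ1 E J C kap → (∀ l < 3, β1 l = N.g l) →
    (sh1 : ℝ) ≤ δ * J →
    NuW J 3 ⌊N.sN * J⌋₊ sh1 sh21 β1 N.P1 N.gN ee1 δ e1 EN1 kk1 ga1 gb1 g1 L1 →
    NLabW F c 3 ⌊N.w1 * J⌋₊ ⌊N.sN * J⌋₊ g1 K1 L1 B z1 z1' P1 → Sub B' B →
    (∀ ω, B ω → Jet 3 Dq (wid ⌊N.w1 * J⌋₊ g1) (P1 (z1 (ptr F J ω))) (Q (z1 (ptr F J ω)))
      (2 ^ k (z1 (ptr F J ω)) / 2 ^ g1 3) (T (z1 (ptr F J ω)))) →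
    (∀ ω, B ω → k (z1 (ptr F J ω)) ≤ kk1) →
    AfW F c ⌊N.w0 * J⌋₊ ⌊N.s0 * J⌋₊ K0 N.g0 (N.g0 2) δ B' →
    LabB F c 3 ⌊N.w1 * J⌋₊ ⌊N.sN * J⌋₊ g1 g1'' K1 L1'' b B' z1 z1' P1 P1' a1 R1 δ1 →
    Nonempty (MLab N φ (max K0 K1) Dq F c B') := by
  obtain ⟨C, E, hC, hjet⟩ := Pool.PLA.jetB 3 Dq K1 (by norm_num)
  refine ⟨C, E, hC, ?_⟩
  intro m J N φ b δ δ1 kap F c B B' β1 ee1 sh1 sh21 e1 EN1 kk1 ga1 gb1 g1 g1'' L1 L1'' R1 V1 z1
    z1' P1 P1' a1 Q T k hN hC' hβ1 hsh1 n1 hl1 hBB hJ hk A0 A1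
  have hJ0 : (0 : ℝ) ≤ J := Nat.cast_nonneg J
  have hb := hC'.b0
  have hδ := hC'.d0
  have hφ : b + 2 * δ ≤ φ := by
    have := hC'.bd
    linarith
  have hφ0 : 0 ≤ φ := by linarith
  have hbφ : b ≤ φ := by linarith
  have hδφ : δ ≤ φ := by linarith
  have hX : b * J ≤ φ * J := mul_le_mul_of_nonneg_right hbφ hJ0
  have hdJ : δ * J ≤ φ * J := mul_le_mul_of_nonneg_right hδφ hJ0
  have hkap : (b + 2 * δ) * J ≤ kap := by
    have h1 : 0 ≤ δ * J := by positivity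
    linarith [hC'.kl]
  have hkap1 : δ * J ≤ kap := by
    have h1 : 0 ≤ δ * J := by positivity
    have h2 : 0 ≤ b * J := by positivity
    linarith [hC'.kl]
  have q1 := numL_of n1 hβ1 hsh1 A1.gle A1.gge A1.geq
  have hw1 : 0 < N.w1 := hN.w0.trans hN.w01
  have hW0 : (⌊N.w0 * J⌋₊ : ℝ) ≤ N.w0 * J := Nat.floor_le (mul_nonneg hN.w0.le hJ0)
  have hW1 : (⌊N.w1 * J⌋₊ : ℝ) ≤ N.w1 * J := Nat.floor_le (mul_nonneg hw1.le hJ0)
  have hW01 : ⌊N.w0 * J⌋₊ ≤ ⌊N.w1 * J⌋₊ :=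
    Nat.floor_le_floor (mul_le_mul_of_nonneg_right hN.w01.le hJ0)
  have hW1J : ⌊N.w1 * J⌋₊ ≤ J := by
    have h0 : N.w1 * J ≤ 1 * J := mul_le_mul_of_nonneg_right hN.w1.le hJ0
    have h1 : (⌊N.w1 * J⌋₊ : ℝ) ≤ J := hW1.trans (by linarith)
    exact_mod_cast h1
  -- the height
  have hG3 : g1'' 3 = g1 3 := A1.geq 3 (by norm_num)
  have hlow : (N.gN - δ) * J ≤ g1 3 := n1.g2l
  have hupp : (g1 3 : ℝ) ≤ (N.gN + δ) * J := by
    have h1 : (g1 3 : ℝ) + sh21 = gb1 3 := by exact_mod_cast n1.g2N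
    have h2 : (gb1 3 : ℝ) ≤ ga1 3 + ⌊N.sN * J⌋₊ := by exact_mod_cast n1.g1N
    have h3 : (⌊N.sN * J⌋₊ : ℝ) ≤ N.sN * J := Nat.floor_le (mul_nonneg hN.sN hJ0)
    have h4 := (abs_le.1 n1.gN).2
    have h5 : (0 : ℝ) ≤ sh21 := Nat.cast_nonneg _
    have h6 : (N.gN + δ) * J = (N.P1 * J + δ * J) + N.sN * J := by
      unfold MNum.P1
      ring
    rw [h6]
    linarith
  have htop3 : g1 3 ≤ J := by
    have h1 : g1 3 ≤ gb1 3 := by
      have := n1.g2N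
      omega
    exact h1.trans n1.g1J
  have hg3 : ∀ l < 3, g1 l ≤ g1 3 := by
    intro l hl
    refine q1.le_of hl (x := N.gN - δ) (by linarith [hC'.gN l hl]) hlow
  have hw3 : ⌊N.w1 * J⌋₊ ≤ g1 3 := by
    have h1 : (⌊N.w1 * J⌋₊ : ℝ) ≤ g1 3 := by
      refine hW1.trans (le_trans ?_ hlow)
      refine mul_le_mul_of_nonneg_right ?_ hJ0
      linarith [hC'.gN 0 (by norm_num), hN.gw 0 (by norm_num)]
    exact_mod_cast h1
  have hwid : ∀ i < 3 + 1, wid ⌊N.w1 * J⌋₊ g1 i ≤ g1 3 := by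
    intro i hi
    unfold wid
    split_ifs with h
    · exact hw3
    · exact hg3 (i - 1) (by omega)
  have hwid' : ∀ i < 3 + 1, wid ⌊N.w1 * J⌋₊ g1'' i ≤ g1 3 := by
    intro i hi
    refine le_trans ?_ (hwid i hi)
    unfold wid
    split_ifs with h
    · exact le_rfl
    · exact A1.gle _
  -- the equation
  obtain ⟨Qh, ρ, hρ, hcs, hge⟩ := hjet Q T k hl1 A1 hBB hw3 le_rfl hwid hJ
  obtain ⟨g₀, L₀, V₀, z₀, z₀', P₀, a₀, b1, b2, b3, b4, b5, b6, b7, b8, b9⟩ := A0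
  have hL0 : L₀ ≤ max L₀ L1'' := le_max_left _ _
  have hL1 : L1'' ≤ max L₀ L1'' := le_max_right _ _
  have hK0 : K0 ≤ max K0 K1 := le_max_left _ _
  have hK1 : K1 ≤ max K0 K1 := le_max_right _ _
  have hcl0 : ∀ ω, B' ω → z₀ (ptr F J ω) =
      (fun s : LnT F => z₀' (s.1, s.2.1, s.2.2 / 2 ^ (⌊N.w1 * J⌋₊ - ⌊N.w0 * J⌋₊)))
        (slam F ⌊N.w1 * J⌋₊ ω) := by
    intro ω hω
    show _ = z₀' ((slam F ⌊N.w1 * J⌋₊ ω).1, (slam F ⌊N.w1 * J⌋₊ ω).2.1,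
      (slam F ⌊N.w1 * J⌋₊ ω).2.2 / 2 ^ (⌊N.w1 * J⌋₊ - ⌊N.w0 * J⌋₊))
    rw [← slam_coarse F hW01 hW1J ω]
    exact b1.cls ω hω
  have hwid0 : ∀ i < 3, ⌊N.w0 * J⌋₊ ≤ wid ⌊N.w0 * J⌋₊ g₀ i + kap := by
    intro i hi
    unfold wid
    split_ifs with h
    · exact Nat.le_add_right _ _
    · have h5 := (abs_le.1 (b3 (i - 1) (by omega))).1
      have h6 := mul_le_mul_of_nonneg_right (hN.gw0 (i - 1) (by omega)) hJ0
      have h7 : (⌊N.w0 * J⌋₊ : ℝ) ≤ (g₀ (i - 1) : ℝ) + kap := by linarith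
      exact_mod_cast h7
  have hdJ1 := hC'.dJ
  exact ⟨{
    V := V1 × V₀
    V0 := V₀
    z := fun ξ => (z1 ξ, z₀ ξ)
    z' := fun s => (z1' s, z₀' (s.1, s.2.1, s.2.2 / 2 ^ (⌊N.w1 * J⌋₊ - ⌊N.w0 * J⌋₊)))
    P := fun v => P1' v.1
    g' := g1''
    sg := 0
    zz := z₀
    zz' := z₀'
    P0 := P₀
    g0' := g₀
    sg0 := ⌊N.s0 * J⌋₊
    pr := Prod.snd
    kap := kap
    L := max L₀ L1''
    G0 := g₀ 1
    a := a₀
    lab := nlab_pair (nlab_drop A1.lab (by norm_num)) hK1 hL1 (fun _ h => h) hcl0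
    lab0 := nlabW_mono b1 hK0 hL0
    prz := fun ω hω => rfl
    dg := fun v i hi => A1.dg v.1 i hi
    dg0 := b2
    num := fun l hl => q1.num hφ hb hδ (by omega)
    num0 := fun l hl => by
      rcases Nat.lt_or_ge l 2 with h2 | h2
      · exact (b3 l h2).trans hdJ
      · have e : l = 2 := by omega
        rw [e]
        exact b4.trans hdJ
    nums := by
      rw [hN.s]
      simp only [Nat.cast_zero, zero_mul, sub_self, abs_zero]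
      positivity
    nums0 := by
      have h2 := Nat.floor_le (mul_nonneg hN.s0 hJ0)
      have h3 := Nat.lt_floor_add_one (N.s0 * (J : ℝ))
      rw [abs_le]
      constructor <;> linarith
    numz := (b3 1 (by norm_num)).trans hdJ
    top := by
      rw [A1.geq 2 le_rfl]
      exact q1.le_of (by norm_num) hC'.top (by rw [one_mul])
    top0 := b5
    srt := fun l hl => q1.srt (by norm_num) hC'.d11 A1.gs hN.gs hl
    srt0 := fun l hl => by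
      have h2 := (abs_le.1 (b3 l hl)).2
      have h3 := (abs_le.1 b4).1
      have h4 := mul_le_mul_of_nonneg_right (hC'.g0 l hl) hJ0
      have h5 : (g₀ l : ℝ) ≤ g₀ 2 := by linarith
      exact_mod_cast h5
    win := fun i hi => q1.win hW1 hN.gw hkap (by omega)
    win0 := hwid0
    kapφ := hC'.ku
    L0 := b6.trans hL0
    L1 := by
      rcases max_choice L₀ L1'' with h | h
      · rw [h]
        exact b7.trans hdJ
      · rw [h]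
        exact A1.L1.trans hX
    pos0 := b8
    siz0 := fun ω hω i => (b9 ω hω i).trans (Real.exp_le_exp.2 hdJ)
    gN := g1''
    lab3 := nlab_pair A1.lab hK1 hL1 (fun _ h => h) hcl0
    sg_eq := rfl
    gN_eq := fun i _ => rfl
    numN := by
      rw [hG3, abs_le]
      constructor <;> linarith
    topN := by
      rw [hG3]
      exact htop3
    winN := fun i hi => q1.win hW1 hN.gw hkap (by omega)
    Pr := g1 3
    Qh := fun v => Qh v.1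
    rz := fun v => ρ v.1
    Pr_W := hw3
    Pr_g := hG3.ge
    Pr_ge := by
      rw [hG3]
      have : 0 ≤ φ * J := by positivity
      linarith
    Pr_wid := fun i hi => hwid' i hi
    csq := fun ω hω => hcs ω hω
    rz_ge := fun ω hω => hge ω hω
    rz_le := fun ω hω => by
      show ((2 ^ (g1 3 - ⌊N.w1 * J⌋₊) : ℕ) : ℝ) * ρ (z1 (ptr F J ω)) ≤ _
      have hM : (0 : ℝ) < ((2 ^ (g1 3 - ⌊N.w1 * J⌋₊) : ℕ) : ℝ) := by positivity
      rw [hρ]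
      have e1 : ((2 ^ (g1 3 - ⌊N.w1 * J⌋₊) : ℕ) : ℝ) * (C * R1 ^ E * 2 ^ k (z1 (ptr F J ω)) /
          ((2 ^ (g1 3 - ⌊N.w1 * J⌋₊) : ℕ) : ℝ)) = C * R1 ^ E * 2 ^ k (z1 (ptr F J ω)) := by
        field_simp
      rw [e1]
      have hC0 : 0 < C := by linarith
      have hR0 : 0 ≤ R1 := by linarith [A1.R4]
      have f1 : C ≤ Real.exp (φ / 4 * J) := by
        rw [← Real.log_le_iff_le_exp hC0]
        exact hC'.C1
      have f2 : R1 ^ E ≤ Real.exp (φ / 4 * J) := by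
        refine (pow_le_pow_left₀ hR0 A1.Rb E).trans ?_
        rw [← Real.exp_nat_mul]
        refine Real.exp_le_exp.2 ?_
        have := mul_le_mul_of_nonneg_right hC'.Eb hJ0
        linarith
      have f3 : (2 : ℝ) ^ k (z1 (ptr F J ω)) ≤ Real.exp (φ / 4 * J) := by
        refine (Pool.PLA.two_le_exp _).trans (Real.exp_le_exp.2 ?_)
        have h1 : (k (z1 (ptr F J ω)) : ℝ) ≤ kk1 := by exact_mod_cast hk ω (hBB ω hω)
        have h2 := n1.kk_le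
        have h3 := mul_le_mul_of_nonneg_right hC'.dφ hJ0
        linarith
      have f4 : 0 < Real.exp (φ / 4 * J) := Real.exp_pos _
      calc C * R1 ^ E * 2 ^ k (z1 (ptr F J ω)) ≤
            Real.exp (φ / 4 * J) * Real.exp (φ / 4 * J) * Real.exp (φ / 4 * J) :=
            mul_le_mul (mul_le_mul f1 f2 (by positivity) f4.le) f3 (by positivity) (by positivity)
        _ = Real.exp (φ / 4 * J + φ / 4 * J + φ / 4 * J) := by
            rw [Real.exp_add, Real.exp_add]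
        _ ≤ Real.exp (φ * J) := by
            refine Real.exp_le_exp.2 ?_
            have : 0 ≤ φ * J := by positivity
            linarith }⟩

/-- A number below finitely many positive numbers. -/
theorem gap_nr (N : MNum) (hN : NumR N) : ∃ γ : ℝ, 0 < γ ∧ N.g 2 + γ ≤ 1 ∧
    (∀ l < 3, N.g l + γ ≤ N.gN) ∧ ∀ l < 2, N.g0 l + γ ≤ N.g0 2 := by
  have h0 := hN.gN 0 (by norm_num)
  have h1 := hN.gN 1 (by norm_num)
  have h2 := hN.gN 2 (by norm_num)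
  have h3 := hN.top
  have h4 := hN.gs0 0 (by norm_num)
  have h5 := hN.gs0 1 (by norm_num)
  obtain ⟨γ, hγ⟩ : ∃ γ : ℝ, γ = min (1 - N.g 2) (min (min (N.gN - N.g 0) (min (N.gN - N.g 1)
    (N.gN - N.g 2))) (min (N.g0 2 - N.g0 0) (N.g0 2 - N.g0 1))) := ⟨_, rfl⟩
  have a1 : γ ≤ 1 - N.g 2 := by rw [hγ]; exact min_le_left _ _
  have a2 : γ ≤ N.gN - N.g 0 := by
    rw [hγ]
    exact (min_le_right _ _).trans ((min_le_left _ _).trans (min_le_left _ _))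
  have a3 : γ ≤ N.gN - N.g 1 := by
    rw [hγ]
    exact (min_le_right _ _).trans ((min_le_left _ _).trans ((min_le_right _ _).trans
      (min_le_left _ _)))
  have a4 : γ ≤ N.gN - N.g 2 := by
    rw [hγ]
    exact (min_le_right _ _).trans ((min_le_left _ _).trans ((min_le_right _ _).trans
      (min_le_right _ _)))
  have a5 : γ ≤ N.g0 2 - N.g0 0 := by
    rw [hγ]
    exact (min_le_right _ _).trans ((min_le_right _ _).trans (min_le_left _ _))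
  have a6 : γ ≤ N.g0 2 - N.g0 1 := by
    rw [hγ]
    exact (min_le_right _ _).trans ((min_le_right _ _).trans (min_le_right _ _))
  refine ⟨γ, ?_, by linarith, fun l hl => ?_, fun l hl => ?_⟩
  · rw [hγ]
    exact lt_min (by linarith) (lt_min (lt_min (by linarith) (lt_min (by linarith)
      (by linarith))) (lt_min (by linarith) (by linarith)))
  · have h6 : l = 0 ∨ l = 1 ∨ l = 2 := by omega
    rcases h6 with h | h | h <;> subst h <;> linarith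
  · have h6 : l = 0 ∨ l = 1 := by omega
    rcases h6 with h | h <;> subst h <;> linarith

/-- **The labels of a class exist**, with the height, from an affine label of `c 0`, `c 1`, `c 2` at
`w₀` and the label of the last row at `w₁`. -/
theorem labN_nr {S : PCl m} {c : ℕ → Fin m} {N : MNum} {K0 K1 Dq : ℕ} (hN : NumR N)
    (hS : TmH S)
    (hx : ∀ (τ : ℝ) (J : ℕ) (F : Fam m J) (A : F.Ω → Prop), S.St τ J F A →
      ∀ ω i, |F.x ω i| ≤ 2)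
    {Nc : ℚ → ℚ → ℝ} {al : ℝ} (hal : 0 < al) (hQ : ActQ Nc al) (hact : ActB Nc S (c 0))
    (hK1 : 1 ≤ K1) {D1 sh1 sh21 : ℕ} {S1 E1 : ℝ} {β1 : ℕ → ℝ} {ee1 : ℝ}
    (hβ1 : ∀ l < 3, β1 l = N.g l)
    (h0 : ∀ φ : ℝ, 0 < φ → ∃ K₁ : ℝ, 0 < K₁ ∧ Bas S (fun J F A => ∃ B : F.Ω → Prop,
      Sub B A ∧ Pe F.p A ≤ K₁ * Pe F.p B ∧
      AfW F c ⌊N.w0 * J⌋₊ ⌊N.s0 * J⌋₊ K0 N.g0 (N.g0 2) φ B))
    (h1 : ∀ δ : ℝ, 0 < δ → ∃ K₁ : ℝ, 0 < K₁ ∧ Bas S (fun J F A => ∃ B : F.Ω → Prop,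
      Sub B A ∧ Pe F.p A ≤ K₁ * Pe F.p B ∧
      LbX F c 3 ⌊N.w1 * J⌋₊ ⌊N.sN * J⌋₊ D1 sh1 sh21 K1 Dq S1 E1 β1 N.P1 N.gN ee1 δ B)) :
    LabN S c N (max K0 K1) Dq := by
  intro φ hφ
  obtain ⟨C, E, hC, hmk⟩ := mlab_nr K0 K1 Dq
  obtain ⟨b, hb⟩ : ∃ b : ℝ, b = φ / (8 * (E + 1)) := ⟨_, rfl⟩
  have hE0 : (0 : ℝ) ≤ E := Nat.cast_nonneg E
  have hb0 : 0 < b := by
    rw [hb]
    positivity
  have hbE : (E + 1) * b = φ / 8 := by
    rw [hb]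
    field_simp
  have hb8 : b ≤ φ / 8 := by nlinarith
  obtain ⟨δ1, hδ1, hcl⟩ := lab_clsB K1 hK1 (r := 3) (by norm_num) hS.1 hS.2 hx hal hQ hact
    (hN.w0.trans hN.w01) hN.w1 hb0 (η := 1 / 2) (by norm_num)
  obtain ⟨γ, hγ, g1, g2, g3⟩ := gap_nr N hN
  obtain ⟨δ, hδ⟩ : ∃ δ : ℝ, δ = min (δ1 / 8) (min (φ / 16) (γ / 2)) := ⟨_, rfl⟩
  have d0 : 0 < δ := by
    rw [hδ]
    exact lt_min (by linarith) (lt_min (by linarith) (by linarith))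
  have d2 : δ ≤ δ1 / 8 := by
    rw [hδ]
    exact min_le_left _ _
  have d3 : δ ≤ φ / 16 := by
    rw [hδ]
    exact (min_le_right _ _).trans (min_le_left _ _)
  have d4 : δ ≤ γ / 2 := by
    rw [hδ]
    exact (min_le_right _ _).trans (min_le_right _ _)
  obtain ⟨K₁, hK₁, hB0⟩ := h0 δ d0
  obtain ⟨K₂, hK₂, hB1⟩ := h1 δ d0
  have hKK : 0 < K₁ * K₂ := mul_pos hK₁ hK₂
  have hKi : 0 < (K₁ * K₂)⁻¹ := inv_pos.2 hKK
  obtain ⟨J₁, hJ₁⟩ := big_ex (1 : ℝ) (s := φ / 2) (by linarith)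
  obtain ⟨J₂, hJ₂⟩ := big_ex (Real.log C) (s := φ / 4) (by linarith)
  obtain ⟨J₃, hJ₃⟩ := big_ex (1 : ℝ) d0
  obtain ⟨J₄, hJ₄⟩ := big_ex (sh1 : ℝ) d0
  refine ⟨(K₁ * K₂)⁻¹ / 2, by positivity,
    ((two_ev (fun J F B B' hB h => h.sub hB) hK₁ hB0 hB1).and (bas_ev hcl hKi)).mono
    (max (max J₁ J₂) (max J₃ J₄)) ?_⟩
  rintro J hJ F A ⟨⟨B, hBA, hPB, x0, x1⟩, hcl⟩
  have hJ0 : (0 : ℝ) ≤ J := Nat.cast_nonneg J
  have f1 := hJ₁ J ((le_max_left _ _).trans ((le_max_left _ _).trans hJ))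
  have f2 := hJ₂ J ((le_max_right _ _).trans ((le_max_left _ _).trans hJ))
  have f3 := hJ₃ J ((le_max_left _ _).trans ((le_max_right _ _).trans hJ))
  have f4 := hJ₄ J ((le_max_right _ _).trans ((le_max_right _ _).trans hJ))
  have hPB' : (K₁ * K₂)⁻¹ * Pe F.p A ≤ Pe F.p B := by
    rw [inv_mul_le_iff₀ hKK]
    exact hPB
  obtain ⟨e1, EN1, kk1, ga1, gb1, gc1, L1, G1, H1, V1, z1, z1', P1, Q1, T1, kf1, n1, l1⟩ := x1
  have q1 := numL_of (b := 0) (g'' := gc1) n1 hβ1 f4 (fun _ => le_rfl) (fun l => by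
    rw [zero_mul, add_zero]) (fun _ _ => rfl)
  have hW1 : (⌊N.w1 * J⌋₊ : ℝ) ≤ N.w1 * J :=
    Nat.floor_le (mul_nonneg (hN.w0.trans hN.w01).le hJ0)
  have e1J : 2 * δ * J ≤ δ1 * J := mul_le_mul_of_nonneg_right (by linarith) hJ0
  have w1 : ∀ l < 3, (⌊N.w1 * J⌋₊ : ℝ) ≤ gc1 l + δ1 * J := by
    intro l hl
    have h2 := q1.lo l hl
    have h3 := mul_le_mul_of_nonneg_right (hN.gw l hl) hJ0
    linarith
  have t1 : ∀ l < 2, gc1 l ≤ J := by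
    intro l hl
    exact q1.le_of (by omega) (x := 1) (by linarith [hN.gs l hl]) (by rw [one_mul])
  obtain ⟨B1, P1', g1'', L1'', a1, R1, s1, k1, A1⟩ := hcl B hBA hPB' gc1 _ L1 V1 z1 z1' P1
    (w1 0 (by norm_num)) (t1 0 (by norm_num)) (w1 1 (by norm_num)) (t1 1 (by norm_num)) n1.L0
    (n1.logL.trans (by linarith)) l1.nlab
  refine ⟨B1, fun ω hω => hBA ω (s1 ω hω), ?_, ?_⟩
  · have e1 : (1 - 1 / 2 : ℝ) = 1 / 2 := by norm_num
    rw [e1] at k1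
    calc (K₁ * K₂)⁻¹ / 2 * Pe F.p A = 1 / 2 * ((K₁ * K₂)⁻¹ * Pe F.p A) := by ring
      _ ≤ 1 / 2 * Pe F.p B := mul_le_mul_of_nonneg_left hPB' (by norm_num)
      _ ≤ _ := k1
  · refine hmk (kap := ⌈(b + 3 * δ) * J⌉₊) (b := b) Q1 T1 kf1 hN ⟨hb0.le, d0.le, by linarith,
      Nat.le_ceil _, ?_, by linarith, by linarith, fun l hl => by
        linarith [g2 l hl], fun l hl => by linarith [g3 l hl], f2, ?_, by linarith, f3⟩ hβ1 f4 n1
        l1.nlab s1 l1.jet l1.kle (x0.sub s1) A1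
    · refine (Nat.ceil_lt_add_one (by positivity)).le.trans ?_
      have h2 : (b + 3 * δ) * J ≤ φ / 2 * J := mul_le_mul_of_nonneg_right (by linarith) hJ0
      linarith
    · nlinarith

/-- **The labels exist for a straddling pair**: the order `c` is greedy at `w₁`, and greedy up to the
slack `vs` for `c 2` at `w₀`; the number of `c 2` at `w₀` is that of its threshold, with the weight
`N.s0`. The degree `Dq` is universal (`Pool.JPN.m3d_ex`). -/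
theorem labN_str {hn : 2 ≤ 4} {S : PCl 4} {P : ℝ → ℝ → ℝ} {ρ : ℝ → ℝ} {θ : ℝ}
    {PP : List (Fin 4) × Fin 4 → ℝ → ℝ → ℝ} {w₀ w₁ α : ℝ} {c₀ c : ℕ → Fin 4} {P1 cD : ℝ}
    {Dq : ℕ} (hM : M3D 3 Dq) (H : Pool.R1.TwoW hn S P ρ θ PP w₀ w₁ α c₀ c P1 cD)
    {N : MNum} (hN : NumR N) (h0 : N.w0 = w₀) (h1 : N.w1 = w₁)
    (hg0 : ∀ l < 2, N.g0 l = bet PP c l w₀ w₀) (hg02 : N.g0 2 = bet PP c 2 w₀ w₀ + N.s0)
    (hg : ∀ l < 3, N.g l = bet PP c l w₁ w₁) (hgN : N.gN = 1 - cD / 2)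
    (hsN : N.sN = 1 - cD / 2 - P1) {vs e : ℝ}
    (hgr0 : bet PP c 0 w₀ w₀ ≤ tau PP c 0 1 w₀ w₀)
    (hsr0 : bet PP c 0 w₀ w₀ ≤ bet PP c 1 w₀ w₀)
    (hgr0' : ∀ l < 2, bet PP c l w₀ w₀ ≤ tau PP c l 2 w₀ w₀ + vs)
    (hvi0 : ∀ l < 3, bet PP c l w₀ w₀ + θ * w₀ < 1) (hvs : 0 ≤ vs)
    (he : Csl 3 3 * vs < e) (heθ : e + 2 * vs < θ * w₀) (hs0 : e + vs ≤ N.s0)
    (hqs0 : bet PP c 2 w₀ w₀ + N.s0 ≤ 1)
    (hex0 : ∀ ρ : ℝ, 0 < ρ → ExvY S w₀ (fun J F ω (i : Fin 2) => F.X J ω (c i))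
      ((∑ l ∈ range 2, (1 - bet PP c l w₀ w₀)) - ρ)) :
    ∃ K : ℕ, 1 ≤ K ∧ LabN S c N K Dq := by
  obtain ⟨al, g₀, s, d, ee, K₀, Nc, hal, hg₀, hnum, hee, hC⟩ := H.cl
  have hmem : ∀ (τ : ℝ) (J : ℕ) (F : Fam 4 J) (A : F.Ω → Prop), S.St τ J F A →
      F.Tr ∧ F.Tm (τ * J) ∧ F.Rb (τ * J) ∧ Real.exp (-(τ * J)) ≤ Pe F.p A := by
    intro τ J F A hA
    obtain ⟨k1, k2, k3, k4, -⟩ := hC.mem τ J F A hA
    exact ⟨k1, k2, k3, k4⟩
  have hS : TmH S := tmH_of_reg hmem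
  have hxx : ∀ (τ : ℝ) (J : ℕ) (F : Fam 4 J) (A : F.Ω → Prop), S.St τ J F A →
      ∀ ω i, |F.x ω i| ≤ 2 := by
    intro τ J F A hA ω i
    obtain ⟨-, -, -, -, h5, -⟩ := hC.mem τ J F A hA
    obtain ⟨⟨h6, h7⟩, h8, -, -⟩ := h5 ω i
    have h9 := F.dir ω i
    have h10 : F.t ω ≤ 1 := by
      unfold Fam.t
      rw [div_le_one (by positivity)]
      exact_mod_cast (F.tim ω).le
    have h11 : 0 ≤ F.t ω := by
      unfold Fam.t
      positivity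
    rw [abs_le] at h9 ⊢
    unfold Fam.x
    constructor <;> nlinarith
  have hw0 := H.w0
  have hw1 : w₁ < 1 := H.w1α.trans H.α1
  have hw01 : w₀ < w₁ := H.w01
  have hP := H.cht
  have hinj : Set.InjOn c (Set.Iio (2 + 1)) := H.gdy1.inj
  have hinj' : Pool.STAT.CLO.Inj c 3 := fun i hi j hj h => hinj hi hj h
  have he0 : 0 < e := lt_of_le_of_lt (mul_nonneg (Nat.cast_nonneg _) hvs) he
  have hb0 : ∀ l, w₀ ≤ bet PP c l w₀ w₀ := fun l => hP.low _ _ _ hw0.le le_rfl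
    (hw01.trans hw1).le
  -- the label of the last row at `w₁`
  obtain ⟨D', sh', sh₂', K'', S₀', E₀', b1, b2, b3, b4, b5⟩ := labxD (m := 4) hM H.gdy1 hC.ne
    hmem H.cht H.θ0 H.tgs H.cD0 H.θ1 H.t1 (Pool.R1.T2c_mono H.t2 (by linarith [H.cD0])) H.αP
    (Pool.TOP.q_le H.rate H.cD0 H.cD1) (hw0.trans hw01) H.w1α H.wgd1 hn H.dn1.1 H.dn1.2 H.ex1
  rw [min_eq_right H.P11.le] at b5
  -- the labels at `w₀`
  have hl0 : ∀ l < 2, bet PP c l w₀ w₀ ≤ bet PP c 1 w₀ w₀ := fun l hl => by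
    interval_cases l
    · exact hsr0
    · exact le_rfl
  obtain ⟨D₂, hD₂⟩ := own_nr (vs := vs) (e := e) (r := 2) (by norm_num) hinj hC.ne hP H.θ0 hS
    hw0 (hw01.trans hw1) H.wgd0 (fun i hi l hl => by
      have e1 : i = 1 := by omega
      have e2 : l = 0 := by omega
      rw [e1, e2]
      exact hgr0) hgr0' hl0 hvi0 H.dn0.1 hvs he heθ
  have hup0 : UpA PP w₀ w₀ := Wgd.self H.wgd0 (hw01.trans hw1)
  have hpts : Pts S PP θ c 3 1 (fun _ => w₀) (fun _ => w₀) vs e := by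
    refine Pts.of_up hC.ne hP H.θ0 hS hinj hvs he0.le (fun _ _ => hw0) (fun _ _ => le_rfl)
      (fun _ _ => hw01.trans hw1) (fun _ _ => heθ) (fun _ _ i _ l _ => hup0.rc (hw01.trans hw1)
        c l i) (fun _ _ i _ => hup0.up c i) (fun _ _ i hi => hvi0 i hi) fun _ _ i hi l hl => ?_
    interval_cases i
    · exact absurd hl (Nat.not_lt_zero l)
    · have e1 : l = 0 := by omega
      subst e1
      linarith
    · exact hgr0' l hl
  have hsr0' : ∀ l < 2, bet PP c l w₀ w₀ ≤ bet PP c 2 w₀ w₀ + vs := fun l hl =>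
    hpts.srt 0 one_pos 2 (by norm_num) l hl
  obtain ⟨γ, hγ⟩ : ∃ γ : ℝ, γ = min (e / 2) w₀ := ⟨_, rfl⟩
  have hγ0 : 0 < γ := by
    rw [hγ]
    exact lt_min (by positivity) hw0
  have hγ2 : γ ≤ e / 2 := by
    rw [hγ]
    exact min_le_left _ _
  have hγ3 : γ ≤ w₀ := by
    rw [hγ]
    exact min_le_right _ _
  have hgap0 : ∀ l < 2, bet PP c l w₀ w₀ + 2 * γ ≤ bet PP c 2 w₀ w₀ + N.s0 :=
    fun l hl => by
    have := hsr0' l hl
    linarith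
  obtain ⟨Dq', hM'⟩ := m3d_ex 2
  obtain ⟨sh, sh₂, K', S₀, E₀, -, hK', -, -, hlab0⟩ := labG hM' hmem hinj' hD₂ hw0 hγ0
    hγ3 (fun l _ => hb0 l) (fun l l' h1 h2 => by
      interval_cases l'
      · have e1 : l = 0 := by omega
        rw [e1]
      · interval_cases l
        · exact hsr0
        · exact le_rfl) hgap0 (by
      have := hgap0 0 (by norm_num)
      linarith [hb0 0]) hqs0 (by linarith) (by linarith) (fun l hl => by
      have := hsr0' l hl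
      linarith) hex0
  have hc0 : c 0 = 0 := Fin.ext H.act1
  have hact : ActB Nc S (c 0) := hC.actb _ H.act1
  have ha0 := afw_cls hS hxx hal (hC.actm.q hg₀) hact hw0 (hw01.trans hw1) hK' hγ0
    (by linarith) (fun l _ => hb0 l) hgap0 hqs0 hlab0
  have hP1 : N.P1 = P1 := by
    unfold MNum.P1
    rw [hgN, hsN]
    ring
  refine ⟨max K' K'', hK'.trans (le_max_left _ _), ?_⟩
  refine labN_nr hN hS hxx hal (hC.actm.q hg₀) hact b2 (fun l hl => (hg l hl).symm)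
    (fun φ hφ => ?_) (D1 := D') (sh1 := sh') (sh21 := sh₂') (S1 := S₀') (E1 := E₀')
    (ee1 := 1 - cD / 2 - max P1 (bet PP c (4 - 2) w₁ w₁)) (fun δ hδ => ?_)
  · obtain ⟨K₁, hK₁, hb⟩ := ha0 φ hφ
    refine ⟨K₁, hK₁, hb.mono 0 ?_⟩
    rintro J - F A ⟨B, k1, k2, k3⟩
    refine ⟨B, k1, k2, ?_⟩
    rw [h0, hg02]
    exact k3.cong fun l hl => hg0 l hl
  · obtain ⟨K₁, hK₁, hb⟩ := b5 δ hδ
    refine ⟨K₁, hK₁, hb.mono 0 ?_⟩
    rintro J - F A ⟨B, k1, k2, k3⟩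
    refine ⟨B, k1, k2, ?_⟩
    rw [h1, hsN, hP1, hgN]
    exact k3

end Pool.JPN
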