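import Pool.Agent.H53.HV.Own4
import Pool.Agent.H24.PLN.Lbc
import Pool.Agent.H5.NOAT.Mem
import Pool.Agent.H5.GEO.IncW

/-!
# The labels of lemma PLANE at two windows

`AfW`: labels of `c 0`, `c 1`, `c 2` at one window, affine for `c 0` and `c 1`. `afw_cls`: they exist
in a class, from the labels of `labG`. `dat_of`: the labels `Dat` from those at the two windows.
`labD_cls`: the same in a class.
-/

set_option autoImplicit false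

namespace Pool.JPN

open Finset Real MvPolynomial
open Pool.Agent.H49.Ent Pool.Agent.H32.Dense Pool.STK Pool.KA Pool.KSAT Pool.K2S Pool.KS3 Pool.PB
  Pool.STAT Pool.STAT.CLO Pool.GEN Pool.S6C Pool.M3F Pool.M3F
open Pool.LBT (ThrOf)
open Pool.CHT (bas_ev TmH tmH_of_reg chsys bet tau Pts Csl)
open Pool.FRN (Wgd UpA)
open Pool.PLN (Nums Dat af)
open Pool.PLA (LabA lab_cls big_ex)
open Pool.GEO (nlabW_mono)
open Pool.FLF (Fam.sub)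

variable {m J : ℕ} {S : PCl m}

/-- **Labels of `c 0`, `c 1`, `c 2` at one window**, affine for `c 0` and `c 1`: numbers `β 0`, `β 1`
and `q`, with the loss `δ`. -/
def AfW (F : Fam m J) (c : ℕ → Fin m) (W sg K : ℕ) (β : ℕ → ℝ) (q δ : ℝ) (B : F.Ω → Prop) :
    Prop :=
  ∃ (g : ℕ → ℕ) (L : ℝ) (V : Type) (z : PtT F → V) (z' : LnT F → V) (P : V → ℕ → PN)
    (a : V → Fin 3 → ℝ), NLabW F c 2 W sg g K L B z z' P ∧
    (∀ v, ∀ i < 3, (P v i).totalDegree ≤ 1) ∧ (∀ l < 2, |(g l : ℝ) - β l * J| ≤ δ * J) ∧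
    |(g 2 : ℝ) - q * J| ≤ δ * J ∧ g 2 ≤ J ∧ 0 ≤ L ∧ Real.log (1 + L) ≤ δ * J ∧
    (∀ ω, B ω → |F.x ω (c 1) - af (a (z (ptr F J ω))) (F.t ω) (F.x ω (c 0))| ≤ 1 / 2 ^ g 1) ∧
    ∀ ω, B ω → ∀ i, |a (z (ptr F J ω)) i| ≤ Real.exp (δ * J)

theorem AfW.sub {F : Fam m J} {c : ℕ → Fin m} {W sg K : ℕ} {β : ℕ → ℝ} {q δ : ℝ}
    {B B' : F.Ω → Prop} (h : AfW F c W sg K β q δ B) (hB : Sub B' B) :
    AfW F c W sg K β q δ B' := by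
  obtain ⟨g, L, V, z, z', P, a, h1, h2, h3, h4, h5, h6, h7, h8, h9⟩ := h
  exact ⟨g, L, V, z, z', P, a, h1.sub hB, h2, h3, h4, h5, h6, h7, fun ω hω => h8 ω (hB ω hω),
    fun ω hω => h9 ω (hB ω hω)⟩

theorem AfW.deg {F : Fam m J} {c : ℕ → Fin m} {W sg K K' : ℕ} {β : ℕ → ℝ} {q δ : ℝ}
    {B : F.Ω → Prop} (h : AfW F c W sg K β q δ B) (hK : K ≤ K') : AfW F c W sg K' β q δ B := by
  obtain ⟨g, L, V, z, z', P, a, h1, h2, h3, h4, h5, h6, h7, h8, h9⟩ := h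
  exact ⟨g, L, V, z, z', P, a, nlabW_mono h1 hK le_rfl, h2, h3, h4, h5, h6, h7, h8, h9⟩

/-- **Affine labels in a class**, from labels of any degree. -/
theorem afw_cls {c : ℕ → Fin m} {w q s E₁ : ℝ} {β : ℕ → ℝ} {sh sh₂ K' D Dq : ℕ} {S₀ E₀ : ℝ}
    (hS : TmH S)
    (hx : ∀ (τ : ℝ) (J : ℕ) (F : Fam m J) (A : F.Ω → Prop), S.St τ J F A →
      ∀ ω i, |F.x ω i| ≤ 2) {N : ℚ → ℚ → ℝ} {al : ℝ} (hal : 0 < al) (hQ : ActQ N al)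
    (hact : ActB N S (c 0)) (hw : 0 < w) (hw1 : w < 1) (hK' : 1 ≤ K') {γ : ℝ} (hγ : 0 < γ)
    (hs : 0 ≤ s) (hβw : ∀ l < 2, w ≤ β l) (hgap : ∀ l < 2, β l + 2 * γ ≤ q + s)
    (hqs : q + s ≤ 1)
    (hlab : ∀ δ : ℝ, 0 < δ → ∃ K₁ : ℝ, 0 < K₁ ∧ Bas S (fun J F A => ∃ (B : F.Ω → Prop)
      (e EN kk : ℕ) (g g₁ g₂ : ℕ → ℕ) (L : ℝ)
      (G : PtT F → ℕ → MvPolynomial (Option (Fin m)) ℝ)
      (H : LnT F → ℕ → MvPolynomial (Option (Fin m)) ℝ) (V : Type) (z : PtT F → V)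
      (z' : LnT F → V) (Pv : V → ℕ → PN) (Qv : V → PN) (T : V → ℝ) (kf : V → ℕ), Sub B A ∧
      Pe F.p A ≤ K₁ * Pe F.p B ∧
      NuW J 2 ⌊s * J⌋₊ sh sh₂ β q (q + s) E₁ δ e EN kk g g₁ g₂ L ∧
      LbW F c 2 ⌊w * J⌋₊ ⌊s * J⌋₊ D K' Dq S₀ E₀ e EN kk g g₁ g₂ L B G H z z' Pv Qv T kf)) :
    ∀ φ : ℝ, 0 < φ → ∃ K₁ : ℝ, 0 < K₁ ∧ Bas S (fun J F A => ∃ B : F.Ω → Prop, Sub B A ∧
      Pe F.p A ≤ K₁ * Pe F.p B ∧ AfW F c ⌊w * J⌋₊ ⌊s * J⌋₊ K' β (q + s) φ B) := by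
  intro φ hφ
  obtain ⟨δ₁, hδ₁, haf⟩ := lab_cls K' hK' (r := 2) le_rfl hS.1 hS.2 hx hal hQ hact hw hw1
    (b := φ / 2) (η := 1 / 2) (by positivity) (by norm_num)
  obtain ⟨δ, hδ⟩ : ∃ δ : ℝ, δ = min (min (φ / 4) (δ₁ / 4)) γ := ⟨_, rfl⟩
  have hδ0 : 0 < δ := by
    rw [hδ]
    exact lt_min (lt_min (by positivity) (by positivity)) hγ
  have hδ2 : δ ≤ φ / 4 := by
    rw [hδ]
    exact (min_le_left _ _).trans (min_le_left _ _)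
  have hδ3 : δ ≤ δ₁ / 4 := by
    rw [hδ]
    exact (min_le_left _ _).trans (min_le_right _ _)
  have hδ4 : δ ≤ γ := by
    rw [hδ]
    exact min_le_right _ _
  obtain ⟨K₁, hK₁, hb⟩ := hlab δ hδ0
  have hev := bas_ev haf (inv_pos.2 hK₁)
  obtain ⟨J₁, hJ₁⟩ := big_ex ((sh : ℝ) + 1) (s := δ) hδ0
  refine ⟨K₁ * 2, by positivity, Bas.mono J₁ (hb.and hev) ?_⟩
  rintro J hJ F A ⟨⟨B, e, EN, kk, g, g₁, g₂, L, G, H, V, z, z', Pv, Qv, T, kf, a1, a2, a3, a4⟩,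
    hl⟩
  have hJ0 : (0 : ℝ) ≤ J := Nat.cast_nonneg J
  have hJs := hJ₁ J hJ
  have mJ : ∀ {x y : ℝ}, x ≤ y → x * J ≤ y * J := fun h => mul_le_mul_of_nonneg_right h hJ0
  have hg2 : ∀ l < 2, (g₂ l : ℝ) + sh = g l := fun l hl => by exact_mod_cast a3.g2 l hl
  have m1 := mJ hδ2
  have m2 := mJ hδ3
  have m3 := mJ hδ4
  have hsh : (0 : ℝ) ≤ sh := Nat.cast_nonneg _
  have hw' : (⌊w * (J : ℝ)⌋₊ : ℝ) ≤ w * J := Nat.floor_le (by positivity)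
  have hlo : ∀ l < 2, (⌊w * (J : ℝ)⌋₊ : ℝ) ≤ g₂ l + δ₁ * J := by
    intro l hl'
    have h1 := (abs_le.1 (a3.gV l hl')).1
    have h2 := hg2 l hl'
    have h3 := mJ (hβw l hl')
    linarith
  have hhi : ∀ l < 2, g₂ l ≤ J := by
    intro l hl'
    have h1 := (abs_le.1 (a3.gV l hl')).2
    have h2 := hg2 l hl'
    have h3 := mJ (show β l + 2 * γ ≤ 1 by linarith [hgap l hl'])
    have h4 : (g₂ l : ℝ) ≤ J := by linarith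
    exact_mod_cast h4
  obtain ⟨B', P', g'', L'', a, b1, b2, b3⟩ := hl B a1 (by
    rw [inv_mul_le_iff₀ hK₁]
    exact a2) g₂ ⌊s * J⌋₊ L V z z' Pv (hlo 0 (by norm_num)) (hhi 0 (by norm_num))
    (hlo 1 (by norm_num)) (hhi 1 (by norm_num)) a3.L0 (by linarith [a3.logL]) a4.nlab
  refine ⟨B', fun ω hω => a1 ω (b1 ω hω), ?_, g'', L'', V, z, z', P', a, b3.lab, b3.dg,
    fun l hl' => ?_, ?_, ?_, b3.L0, by linarith [b3.L1], fun ω hω => ?_, fun ω hω i => ?_⟩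
  · have h1 : Pe F.p B ≤ 2 * Pe F.p B' := by linarith
    calc Pe F.p A ≤ K₁ * Pe F.p B := a2
      _ ≤ K₁ * (2 * Pe F.p B') := mul_le_mul_of_nonneg_left h1 hK₁.le
      _ = _ := by ring
  · have h1 := abs_le.1 (a3.gV l hl')
    have h2 := hg2 l hl'
    have h3 : (g'' l : ℝ) ≤ g₂ l := by exact_mod_cast b3.gle l
    have h4 := b3.gge l
    rw [abs_le]
    constructor <;> linarith
  · rw [b3.geq 2 le_rfl]
    have h1 := a3.g2l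
    have h2 : (g₂ 2 : ℝ) + sh₂ = g₁ 2 := by exact_mod_cast a3.g2N
    have h3 : (g₁ 2 : ℝ) ≤ g 2 + (⌊s * (J : ℝ)⌋₊ : ℕ) := by exact_mod_cast a3.g1N
    have h4 := (abs_le.1 a3.gN).2
    have h5 : (0 : ℝ) ≤ sh₂ := Nat.cast_nonneg _
    have h6 : ((⌊s * (J : ℝ)⌋₊ : ℕ) : ℝ) ≤ s * J := Nat.floor_le (mul_nonneg hs hJ0)
    rw [abs_le]
    constructor <;> linarith
  · rw [b3.geq 2 le_rfl]
    have h1 := a3.g2N
    have h2 := a3.g1J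
    omega
  · have h1 := b3.pos ω hω (F.t ω) (by
      rw [sub_self, abs_zero]
      positivity)
    exact h1
  · refine (b3.siz ω hω i).trans (Real.exp_le_exp.2 ?_)
    linarith

/-- **The labels `Dat`** from those at the two windows. -/
theorem dat_of {F : Fam m J} {c : ℕ → Fin m} {N : Nums} {K : ℕ} {φ δ γ : ℝ} {B : F.Ω → Prop}
    {β₀ β₁ : ℕ → ℝ} {q₀ q₁ : ℝ} (hN0 : ∀ l < 2, N.g0 l = β₀ l) (hN1 : ∀ l < 2, N.g l = β₁ l)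
    (hq0 : N.g0 2 = q₀ + N.s0) (hq1 : N.g 2 = q₁ + N.s) (hs0 : 0 ≤ N.s0) (hs1 : 0 ≤ N.s)
    (hw0 : 0 ≤ N.w0) (hw01 : N.w0 ≤ N.w1) (hw1 : N.w1 ≤ 1) (hβ0 : ∀ l < 2, N.w0 ≤ β₀ l)
    (hβ1 : ∀ l < 2, N.w1 ≤ β₁ l) (hgap0 : ∀ l < 2, β₀ l + 2 * γ ≤ q₀ + N.s0)
    (hgap1 : ∀ l < 2, β₁ l + 2 * γ ≤ q₁ + N.s) (hδγ : δ ≤ γ) (hδφ : 4 * δ ≤ φ)
    (hJ : 1 ≤ δ * J)
    (h0 : AfW F c ⌊N.w0 * J⌋₊ ⌊N.s0 * J⌋₊ K β₀ (q₀ + N.s0) δ B)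
    (h1 : AfW F c ⌊N.w1 * J⌋₊ ⌊N.s * J⌋₊ K β₁ (q₁ + N.s) δ B) : Nonempty (Dat N φ K F c B) := by
  obtain ⟨g₀, L₀, V₀, z₀, z₀', P₀, a₀, b1, b2, b3, b4, b5, b6, b7, b8, b9⟩ := h0
  obtain ⟨g₁, L₁, V₁, z₁, z₁', P₁, a₁, d1, d2, d3, d4, d5, d6, d7, d8, d9⟩ := h1
  have hJ0 : (0 : ℝ) ≤ J := Nat.cast_nonneg J
  have mJ : ∀ {x y : ℝ}, x ≤ y → x * J ≤ y * J := fun h => mul_le_mul_of_nonneg_right h hJ0
  have m1 := mJ hδφ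
  have m2 := mJ hδγ
  have hWJ : ⌊N.w1 * (J : ℝ)⌋₊ ≤ J := Pool.LBT.fl_le' hw1 J
  have hWW : ⌊N.w0 * (J : ℝ)⌋₊ ≤ ⌊N.w1 * (J : ℝ)⌋₊ := Nat.floor_le_floor (mJ hw01)
  have hf0 : (⌊N.w0 * (J : ℝ)⌋₊ : ℝ) ≤ N.w0 * J := Nat.floor_le (mul_nonneg hw0 hJ0)
  have hf1 : (⌊N.w1 * (J : ℝ)⌋₊ : ℝ) ≤ N.w1 * J := Nat.floor_le (mul_nonneg (hw0.trans hw01) hJ0)
  have hsg : ∀ x : ℝ, 0 ≤ x → |(⌊x * (J : ℝ)⌋₊ : ℝ) - x * J| ≤ φ * J := by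
    intro x hx
    have h2 := Nat.floor_le (mul_nonneg hx hJ0)
    have h3 := Nat.lt_floor_add_one (x * (J : ℝ))
    rw [abs_le]
    constructor <;> linarith
  obtain ⟨kap, hkap⟩ : ∃ kap : ℕ, kap = ⌈δ * (J : ℝ)⌉₊ := ⟨_, rfl⟩
  have hk1 : δ * J ≤ kap := by
    rw [hkap]
    exact Nat.le_ceil _
  have hk2 : (kap : ℝ) ≤ δ * J + 1 := by
    rw [hkap]
    exact (Nat.ceil_lt_add_one (by linarith : 0 ≤ δ * (J : ℝ))).le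
  have hlog : Real.log (1 + max L₀ L₁) ≤ φ * J := by
    rcases max_choice L₀ L₁ with h | h <;> rw [h] <;> linarith
  have hexp : Real.exp (δ * J) ≤ Real.exp (φ * J) := Real.exp_le_exp.2 (by linarith)
  have hcls : ∀ ω, B ω → (fun ξ => (z₁ ξ, z₀ ξ)) (ptr F J ω) =
      (fun s => (z₁' s, z₀' (Pool.NOA.crs F ⌊N.w0 * (J : ℝ)⌋₊ ⌊N.w1 * (J : ℝ)⌋₊ s)))
        (slam F ⌊N.w1 * (J : ℝ)⌋₊ ω) := by
    intro ω hω
    refine Prod.ext (d1.cls ω hω) ?_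
    show z₀ (ptr F J ω) = z₀' (Pool.NOA.crs F _ _ (slam F ⌊N.w1 * (J : ℝ)⌋₊ ω))
    rw [← Pool.NOA.slam_crs hWW hWJ ω]
    exact b1.cls ω hω
  have hwid : ∀ {W : ℕ} {g : ℕ → ℕ} {w : ℝ} {β : ℕ → ℝ}, (W : ℝ) ≤ w * J →
      (∀ l < 2, w ≤ β l) → (∀ l < 2, |(g l : ℝ) - β l * J| ≤ δ * J) →
      ∀ i < 3, W ≤ wid W g i + kap := by
    intro W g w β h2 h3 h4 i hi
    rcases Nat.eq_zero_or_pos i with rfl | hi0
    · show W ≤ W + kap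
      omega
    · have e : wid W g i = g (i - 1) := if_neg hi0.ne'
      rw [e]
      have h5 := (abs_le.1 (h4 (i - 1) (by omega))).1
      have h6 := mJ (h3 (i - 1) (by omega))
      have h7 : (W : ℝ) ≤ (g (i - 1) : ℝ) + kap := by linarith
      exact_mod_cast h7
  have hlab : NLabW F c 2 ⌊N.w1 * (J : ℝ)⌋₊ ⌊N.s * (J : ℝ)⌋₊ g₁ K (max L₀ L₁) B
      (fun ξ => (z₁ ξ, z₀ ξ))
      (fun s => (z₁' s, z₀' (Pool.NOA.crs F ⌊N.w0 * (J : ℝ)⌋₊ ⌊N.w1 * (J : ℝ)⌋₊ s)))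
      (fun v => P₁ v.1) := by
    have h2 := nlabW_mono d1 (le_refl K) (le_max_right L₀ L₁)
    exact ⟨fun v i => h2.deg v.1 i, fun v => h2.tri v.1, hcls, h2.zero, h2.pos, h2.posN,
      h2.grad⟩
  exact ⟨{
    V := V₁ × V₀
    V0 := V₀
    z := fun ξ => (z₁ ξ, z₀ ξ)
    z' := fun s => (z₁' s, z₀' (Pool.NOA.crs F ⌊N.w0 * (J : ℝ)⌋₊ ⌊N.w1 * (J : ℝ)⌋₊ s))
    P := fun v => P₁ v.1
    g' := g₁
    sg := ⌊N.s * J⌋₊
    zz := z₀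
    zz' := z₀'
    P0 := P₀
    g0' := g₀
    sg0 := ⌊N.s0 * J⌋₊
    pr := Prod.snd
    kap := kap
    L := max L₀ L₁
    G0 := g₀ 1
    a := a₀
    lab := hlab
    lab0 := nlabW_mono b1 le_rfl (le_max_left _ _)
    prz := fun _ _ => rfl
    dg := fun v i hi => d2 v.1 i hi
    dg0 := b2
    num := by
      intro l hl
      rcases Nat.lt_or_ge l 2 with h2 | h2
      · rw [hN1 l h2]
        exact (d3 l h2).trans (by linarith)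
      · have e : l = 2 := by omega
        rw [e, hq1]
        exact d4.trans (by linarith)
    num0 := by
      intro l hl
      rcases Nat.lt_or_ge l 2 with h2 | h2
      · rw [hN0 l h2]
        exact (b3 l h2).trans (by linarith)
      · have e : l = 2 := by omega
        rw [e, hq0]
        exact b4.trans (by linarith)
    nums := hsg _ hs1
    nums0 := hsg _ hs0
    numz := by
      rw [hN0 1 (by norm_num)]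
      exact (b3 1 (by norm_num)).trans (by linarith)
    top := d5
    top0 := b5
    srt := by
      intro l hl
      have h2 := (abs_le.1 (d3 l hl)).2
      have h3 := (abs_le.1 d4).1
      have h4 := mJ (hgap1 l hl)
      have h5 : (g₁ l : ℝ) ≤ g₁ 2 := by linarith
      exact_mod_cast h5
    srt0 := by
      intro l hl
      have h2 := (abs_le.1 (b3 l hl)).2
      have h3 := (abs_le.1 b4).1
      have h4 := mJ (hgap0 l hl)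
      have h5 : (g₀ l : ℝ) ≤ g₀ 2 := by linarith
      exact_mod_cast h5
    win := hwid hf1 hβ1 d3
    win0 := hwid hf0 hβ0 b3
    kapφ := by linarith
    L0 := b6.trans (le_max_left _ _)
    L1 := hlog
    pos0 := b8
    siz0 := fun ω hω i => (b9 ω hω i).trans hexp }⟩

/-- **The labels `Dat` in a class**, from those at the two windows. -/
theorem labD_cls {c : ℕ → Fin m} {N : Nums} {K : ℕ} {γ : ℝ} {β₀ β₁ : ℕ → ℝ} {q₀ q₁ : ℝ}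
    (hN0 : ∀ l < 2, N.g0 l = β₀ l) (hN1 : ∀ l < 2, N.g l = β₁ l)
    (hq0 : N.g0 2 = q₀ + N.s0) (hq1 : N.g 2 = q₁ + N.s) (hs0 : 0 ≤ N.s0) (hs1 : 0 ≤ N.s)
    (hw0 : 0 ≤ N.w0) (hw01 : N.w0 ≤ N.w1) (hw1 : N.w1 ≤ 1) (hβ0 : ∀ l < 2, N.w0 ≤ β₀ l)
    (hβ1 : ∀ l < 2, N.w1 ≤ β₁ l) (hγ : 0 < γ) (hgap0 : ∀ l < 2, β₀ l + 2 * γ ≤ q₀ + N.s0)
    (hgap1 : ∀ l < 2, β₁ l + 2 * γ ≤ q₁ + N.s)
    (h0 : ∀ φ : ℝ, 0 < φ → ∃ K₁ : ℝ, 0 < K₁ ∧ Bas S (fun J F A => ∃ B : F.Ω → Prop, Sub B A ∧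
      Pe F.p A ≤ K₁ * Pe F.p B ∧ AfW F c ⌊N.w0 * J⌋₊ ⌊N.s0 * J⌋₊ K β₀ (q₀ + N.s0) φ B))
    (h1 : ∀ φ : ℝ, 0 < φ → ∃ K₁ : ℝ, 0 < K₁ ∧ Bas S (fun J F A => ∃ B : F.Ω → Prop, Sub B A ∧
      Pe F.p A ≤ K₁ * Pe F.p B ∧ AfW F c ⌊N.w1 * J⌋₊ ⌊N.s * J⌋₊ K β₁ (q₁ + N.s) φ B)) :
    ∀ φ : ℝ, 0 < φ → ∃ κ : ℝ, 0 < κ ∧ Bas S (fun _ F A => ∃ A' : F.Ω → Prop, Sub A' A ∧
      κ * Pe F.p A ≤ Pe F.p A' ∧ Nonempty (Dat N φ K F c A')) := by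
  intro φ hφ
  obtain ⟨δ, hδ⟩ : ∃ δ : ℝ, δ = min (φ / 4) γ := ⟨_, rfl⟩
  have hδ0 : 0 < δ := by rw [hδ]; exact lt_min (by positivity) hγ
  have hδ1 : 4 * δ ≤ φ := by
    have : δ ≤ φ / 4 := by rw [hδ]; exact min_le_left _ _
    linarith
  have hδ2 : δ ≤ γ := by rw [hδ]; exact min_le_right _ _
  obtain ⟨K₁, hK₁, hb0⟩ := h0 δ hδ0
  obtain ⟨K₂, hK₂, hb1⟩ := h1 δ hδ0
  obtain ⟨J₁, hJ₁⟩ := big_ex (1 : ℝ) (s := δ) hδ0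
  refine ⟨(K₁ * K₂)⁻¹, inv_pos.2 (mul_pos hK₁ hK₂),
    (two_ev (fun J F B B' hB h => h.sub hB) hK₁ hb0 hb1).mono J₁ ?_⟩
  rintro J hJ F A ⟨B, a1, a2, a3, a4⟩
  refine ⟨B, a1, ?_, dat_of hN0 hN1 hq0 hq1 hs0 hs1 hw0 hw01 hw1 hβ0 hβ1 hgap0 hgap1 hδ2
    hδ1 (hJ₁ J hJ) a3 a4⟩
  rw [inv_mul_le_iff₀ (mul_pos hK₁ hK₂)]
  exact a2

/-- **The labels `Dat` exist** at two good windows: the order `c` of the first three coordinates is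
greedy at `w₁`, and greedy up to the slack `vs` for `c 2` at `w₀`. The number of `c 2` at `w₁` is that
of its threshold, below `Q`, with the weight `N.s`; at `w₀` it is that of its threshold, with the
weight `N.s0`. -/
theorem labD_hv {θ : ℝ} {P : List (Fin m) × Fin m → ℝ → ℝ → ℝ} {c : ℕ → Fin m} {N : Nums}
    {Q vs e : ℝ} (hne : S.Ne)
    (hmem : ∀ (τ : ℝ) (J : ℕ) (F : Fam m J) (A : F.Ω → Prop), S.St τ J F A →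
      F.Tr ∧ F.Tm (τ * J) ∧ F.Rb (τ * J) ∧ Real.exp (-(τ * J)) ≤ Pe F.p A)
    (hx : ∀ (τ : ℝ) (J : ℕ) (F : Fam m J) (A : F.Ω → Prop), S.St τ J F A →
      ∀ ω i, |F.x ω i| ≤ 2) {N' : ℚ → ℚ → ℝ} {al : ℝ} (hal : 0 < al) (hQ : ActQ N' al)
    (hact : ActB N' S (c 0)) (hP : ThrOf (chsys m θ) S P) (hθ : 0 < θ) (hinj : Inj c 3)
    (hw0 : 0 < N.w0) (hw01 : N.w0 ≤ N.w1) (hw1 : N.w1 < 1)
    (hwd0 : N.w0 ∈ Wgd P) (hwd1 : N.w1 ∈ Wgd P)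
    (hd0 : ∀ i, Dn1 (P i) N.w0) (hd1 : ∀ i, Dn1 (P i) N.w1)
    (hg0 : ∀ l < 2, N.g0 l = bet P c l N.w0 N.w0) (hg1 : ∀ l < 2, N.g l = bet P c l N.w1 N.w1)
    (hg02 : N.g0 2 = bet P c 2 N.w0 N.w0 + N.s0)
    (hg2 : N.g 2 = min (bet P c 2 N.w1 N.w1) Q + N.s)
    -- the window `w₁`
    (hgr1 : bet P c 0 N.w1 N.w1 ≤ tau P c 0 1 N.w1 N.w1)
    (hsr1 : bet P c 0 N.w1 N.w1 ≤ bet P c 1 N.w1 N.w1)
    (hsr1' : bet P c 1 N.w1 N.w1 ≤ bet P c 2 N.w1 N.w1)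
    (hvi1 : ∀ l < 2, bet P c l N.w1 N.w1 + θ * N.w1 < 1) (hbQ : bet P c 1 N.w1 N.w1 ≤ Q)
    (hQ1 : Q + θ * N.w1 < 1) (hs1 : θ * N.w1 ≤ N.s)
    (hqs1 : min (bet P c 2 N.w1 N.w1) Q + N.s ≤ 1)
    (hex1 : ∀ ρ : ℝ, 0 < ρ → ExvY S N.w1 (fun J F ω (i : Fin 2) => F.X J ω (c i))
      ((∑ l ∈ range 2, (1 - bet P c l N.w1 N.w1)) - ρ))
    -- the window `w₀`
    (hgr0 : bet P c 0 N.w0 N.w0 ≤ tau P c 0 1 N.w0 N.w0)
    (hsr0 : bet P c 0 N.w0 N.w0 ≤ bet P c 1 N.w0 N.w0)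
    (hgr0' : ∀ l < 2, bet P c l N.w0 N.w0 ≤ tau P c l 2 N.w0 N.w0 + vs)
    (hvi0 : ∀ l < 3, bet P c l N.w0 N.w0 + θ * N.w0 < 1) (hvs : 0 ≤ vs)
    (he : Csl 3 3 * vs < e) (heθ : e + 2 * vs < θ * N.w0) (hs0 : e + vs ≤ N.s0)
    (hqs0 : bet P c 2 N.w0 N.w0 + N.s0 ≤ 1)
    (hex0 : ∀ ρ : ℝ, 0 < ρ → ExvY S N.w0 (fun J F ω (i : Fin 2) => F.X J ω (c i))
      ((∑ l ∈ range 2, (1 - bet P c l N.w0 N.w0)) - ρ)) :
    ∃ K : ℕ, 1 ≤ K ∧ ∀ φ : ℝ, 0 < φ → ∃ κ : ℝ, 0 < κ ∧ Bas S (fun _ F A =>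
      ∃ A' : F.Ω → Prop, Sub A' A ∧ κ * Pe F.p A ≤ Pe F.p A' ∧ Nonempty (Dat N φ K F c A')) := by
  have hS : TmH S := tmH_of_reg hmem
  have hw0' : N.w0 < 1 := hw01.trans_lt hw1
  have hw1' : 0 < N.w1 := hw0.trans_le hw01
  have hinj' : Set.InjOn c (Set.Iio (2 + 1)) := fun i hi j hj h => hinj i hi j hj h
  have he0 : 0 < e := lt_of_le_of_lt (mul_nonneg (Nat.cast_nonneg _) hvs) he
  have hθ0 : 0 < θ * N.w0 := mul_pos hθ hw0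
  have hθ1 : 0 < θ * N.w1 := mul_pos hθ hw1'
  have hb0 : ∀ l, N.w0 ≤ bet P c l N.w0 N.w0 := fun l => hP.low _ _ _ hw0.le le_rfl hw0'.le
  have hb1 : ∀ l, N.w1 ≤ bet P c l N.w1 N.w1 := fun l => hP.low _ _ _ hw1'.le le_rfl hw1.le
  obtain ⟨Dq, hM⟩ := m3d_ex 2
  -- sorted numbers
  have hl1 : ∀ l < 2, bet P c l N.w1 N.w1 ≤ bet P c 1 N.w1 N.w1 := fun l hl => by
    interval_cases l
    · exact hsr1
    · exact le_rfl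
  have hl0 : ∀ l < 2, bet P c l N.w0 N.w0 ≤ bet P c 1 N.w0 N.w0 := fun l hl => by
    interval_cases l
    · exact hsr0
    · exact le_rfl
  have hup0 : UpA P N.w0 N.w0 := Wgd.self hwd0 hw0'
  have hpts : Pts S P θ c 3 1 (fun _ => N.w0) (fun _ => N.w0) vs e := by
    refine Pts.of_up hne hP hθ hS hinj' hvs he0.le (fun _ _ => hw0) (fun _ _ => le_rfl)
      (fun _ _ => hw0') (fun _ _ => heθ) (fun _ _ i _ l _ => hup0.rc hw0' c l i)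
      (fun _ _ i _ => hup0.up c i) (fun _ _ i hi => hvi0 i hi) fun _ _ i hi l hl => ?_
    interval_cases i
    · exact absurd hl (Nat.not_lt_zero l)
    · have e1 : l = 0 := by omega
      subst e1
      linarith
    · exact hgr0' l hl
  have hsr0' : ∀ l < 2, bet P c l N.w0 N.w0 ≤ bet P c 2 N.w0 N.w0 + vs := fun l hl =>
    hpts.srt 0 one_pos 2 (by norm_num) l hl
  -- the labels at `w₁`
  obtain ⟨D₁, hD₁⟩ := own_cap (Q := Q) (r := 2) (by norm_num) hinj' hne hP hθ hS hw1' hw1 hwd1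
    (fun i hi l hl => by
      have e1 : i = 1 := by omega
      have e2 : l = 0 := by omega
      rw [e1, e2]
      exact hgr1) hl1 hvi1 hd1 ((hb1 1).trans hbQ) hQ1
  have hq1 : bet P c 1 N.w1 N.w1 ≤ min (bet P c 2 N.w1 N.w1) Q := le_min hsr1' hbQ
  obtain ⟨γ, hγ⟩ : ∃ γ : ℝ, γ = min (min (θ * N.w1 / 2) (e / 2)) N.w0 := ⟨_, rfl⟩
  have hγ0 : 0 < γ := by
    rw [hγ]
    exact lt_min (lt_min (by positivity) (by positivity)) hw0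
  have hγ1 : γ ≤ θ * N.w1 / 2 := by
    rw [hγ]
    exact (min_le_left _ _).trans (min_le_left _ _)
  have hγ2 : γ ≤ e / 2 := by
    rw [hγ]
    exact (min_le_left _ _).trans (min_le_right _ _)
  have hγ3 : γ ≤ N.w0 := by
    rw [hγ]
    exact min_le_right _ _
  have hgap1 : ∀ l < 2, bet P c l N.w1 N.w1 + 2 * γ ≤
      min (bet P c 2 N.w1 N.w1) Q + N.s := fun l hl => by
    have := hl1 l hl
    linarith
  have hgap0 : ∀ l < 2, bet P c l N.w0 N.w0 + 2 * γ ≤ bet P c 2 N.w0 N.w0 + N.s0 :=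
    fun l hl => by
    have := hsr0' l hl
    linarith
  have hmn : ∀ (w : ℝ), bet P c 0 w w ≤ bet P c 1 w w → ∀ l l', l ≤ l' → l' < 2 →
      bet P c l w w ≤ bet P c l' w w := by
    intro w h l l' h1 h2
    interval_cases l'
    · have e1 : l = 0 := by omega
      rw [e1]
    · interval_cases l
      · exact h
      · exact le_rfl
  obtain ⟨sh, sh₂, K', S₀, E₀, -, hK', -, -, hlab1⟩ := labG hM hmem hinj hD₁ hw1' hγ0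
    (hγ3.trans hw01) (fun l _ => hb1 l) (hmn _ hsr1) hgap1 (by
      have := hgap1 0 (by norm_num)
      linarith [hb1 0]) hqs1 (by linarith) hs1 (fun l hl => by
      have := hl1 l hl
      linarith) hex1
  -- the labels at `w₀`
  obtain ⟨D₂, hD₂⟩ := own_nr (vs := vs) (e := e) (r := 2) (by norm_num) hinj' hne hP hθ hS hw0
    hw0' hwd0 (fun i hi l hl => by
      have e1 : i = 1 := by omega
      have e2 : l = 0 := by omega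
      rw [e1, e2]
      exact hgr0) hgr0' hl0 hvi0 hd0 hvs he heθ
  obtain ⟨sh', sh₂', K'', S₀', E₀', -, hK'', -, -, hlab0⟩ := labG hM hmem hinj hD₂ hw0 hγ0
    hγ3 (fun l _ => hb0 l) (hmn _ hsr0) hgap0 (by
      have := hgap0 0 (by norm_num)
      linarith [hb0 0]) hqs0 (by linarith) (by linarith) (fun l hl => by
      have := hsr0' l hl
      linarith) hex0
  have ha1 := afw_cls hS hx hal hQ hact hw1' hw1 hK' hγ0 (by linarith) (fun l _ => hb1 l) hgap1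
    hqs1 hlab1
  have ha0 := afw_cls hS hx hal hQ hact hw0 hw0' hK'' hγ0 (by linarith) (fun l _ => hb0 l)
    hgap0 hqs0 hlab0
  refine ⟨max K' K'', hK'.trans (le_max_left _ _), ?_⟩
  refine labD_cls (β₀ := fun l => bet P c l N.w0 N.w0) (β₁ := fun l => bet P c l N.w1 N.w1)
    (q₀ := bet P c 2 N.w0 N.w0) (q₁ := min (bet P c 2 N.w1 N.w1) Q) hg0 hg1 hg02 hg2
    (by linarith) (by linarith) hw0.le hw01 hw1.le (fun l _ => hb0 l) (fun l _ => hb1 l) hγ0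
    hgap0 hgap1 (fun φ hφ => ?_) fun φ hφ => ?_
  · obtain ⟨K₁, hK₁, hb⟩ := ha0 φ hφ
    refine ⟨K₁, hK₁, hb.mono 0 ?_⟩
    rintro J - F A ⟨B, h1, h2, h3⟩
    exact ⟨B, h1, h2, h3.deg (le_max_right _ _)⟩
  · obtain ⟨K₁, hK₁, hb⟩ := ha1 φ hφ
    refine ⟨K₁, hK₁, hb.mono 0 ?_⟩
    rintro J - F A ⟨B, h1, h2, h3⟩
    exact ⟨B, h1, h2, h3.deg (le_max_left _ _)⟩

end Pool.JPN
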