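import Pool.Agent.H53.HV.Tgp
import Pool.Agent.H53.JM.Lab2

/-!
# The labels of one window, for any list of coordinates

`OwnS`: the conclusion of `own_g`. `labG`: `Pool.JPN.lab1D` from it, for any weight `s` of the
coordinate on the top.
-/

set_option autoImplicit false

namespace Pool.JPN

open Finset Real MvPolynomial
open Pool.Agent.H49.Ent Pool.Agent.H32.Dense Pool.STK Pool.KA Pool.KSAT Pool.K2S Pool.KS3 Pool.PB
  Pool.STAT Pool.STAT.CLO Pool.GEN Pool.S6C Pool.M3F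
open Pool.CHT (bas_ev)

variable {m J : ℕ} {S : PCl m}

/-- **The chain of a window**, with the coordinate `c r` on the top, of degree `D`: numbers `β` and
`q`, exponent `E₀` of the top. -/
def OwnS (S : PCl m) (c : ℕ → Fin m) (r : ℕ) (w : ℝ) (β : ℕ → ℝ) (q E₀ : ℝ) (D : ℕ) : Prop :=
  ∀ ε : ℝ, 0 < ε → ∃ K₁ : ℝ, 0 < K₁ ∧ Bas S (fun J F A => ∃ (B : F.Ω → Prop)
    (e E : ℕ) (g : ℕ → ℕ) (G : PtT F → ℕ → MvPolynomial (Option (Fin m)) ℝ)
    (H : LnT F → ℕ → MvPolynomial (Option (Fin m)) ℝ), Sub B A ∧ Pe F.p A ≤ K₁ * Pe F.p B ∧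
    (e : ℝ) ≤ ε * J ∧ (E : ℝ) ≤ (E₀ + ε) * J ∧
    (∀ l < r, |(g l : ℝ) - β l * J| ≤ ε * J) ∧ |(g r : ℝ) - q * J| ≤ ε * J ∧
    ChOK F c r (fun _ => D) ⌊w * J⌋₊ ⌊w * J⌋₊ e g B G H ∧
    ChOK F c (r + 1) (fun _ => D) ⌊w * J⌋₊ ⌊w * J⌋₊ E g B G H)

/-- **The labels of one window**, from the chain of `own_g`. -/
theorem labG {Dq r : ℕ} (hM : M3D r Dq)
    (hmem : ∀ (τ : ℝ) (J : ℕ) (F : Fam m J) (A : F.Ω → Prop), S.St τ J F A →
      F.Tr ∧ F.Tm (τ * J) ∧ F.Rb (τ * J) ∧ Real.exp (-(τ * J)) ≤ Pe F.p A)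
    {c : ℕ → Fin m} (hinj : Inj c (r + 1)) {w q s E₁ γ : ℝ} {β : ℕ → ℝ} {D : ℕ}
    (hown : OwnS S c r w β q E₁ D) (hw : 0 < w) (hγ : 0 < γ) (hγw : γ ≤ w)
    (hβw : ∀ l < r, w ≤ β l) (hsrt : ∀ l l', l ≤ l' → l' < r → β l ≤ β l')
    (hgap : ∀ l < r, β l + 2 * γ ≤ q + s) (hwγ : w + 2 * γ ≤ q + s) (hqs : q + s ≤ 1)
    (hs : 0 ≤ s) (hE : E₁ ≤ s) (hE' : ∀ l < r, E₁ + β l ≤ s + q)
    (hex : ∀ ρ : ℝ, 0 < ρ → ExvY S w (fun J F ω (i : Fin r) => F.X J ω (c i))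
      ((∑ l ∈ range r, (1 - β l)) - ρ)) :
    ∃ (sh sh₂ K' : ℕ) (S₀ E₀ : ℝ), sh ≤ sh₂ ∧ 1 ≤ K' ∧ 1 ≤ S₀ ∧ 1 ≤ E₀ ∧
    ∀ δ : ℝ, 0 < δ → ∃ K₁ : ℝ, 0 < K₁ ∧ Bas S (fun J F A => ∃ (B : F.Ω → Prop) (e EN kk : ℕ)
      (g g₁ g₂ : ℕ → ℕ) (L : ℝ) (G : PtT F → ℕ → MvPolynomial (Option (Fin m)) ℝ)
      (H : LnT F → ℕ → MvPolynomial (Option (Fin m)) ℝ) (V : Type) (z : PtT F → V)
      (z' : LnT F → V) (Pv : V → ℕ → PN) (Qv : V → PN) (T : V → ℝ) (kf : V → ℕ), Sub B A ∧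
      Pe F.p A ≤ K₁ * Pe F.p B ∧
      NuW J r ⌊s * J⌋₊ sh sh₂ β q (q + s) E₁ δ e EN kk g g₁ g₂ L ∧
      LbW F c r ⌊w * J⌋₊ ⌊s * J⌋₊ D K' Dq S₀ E₀ e EN kk g g₁ g₂ L B G H z z' Pv Qv T kf) := by
  classical
  obtain ⟨sh, sh₂, K', S₀, E₀, hsh, hK', hS₀, hE₀, hM⟩ := hM D
  refine ⟨sh, sh₂, K', S₀, E₀, hsh, hK', hS₀, hE₀, fun δ hδ => ?_⟩
  obtain ⟨gr, hgr⟩ : ∃ gr : ℕ → ℝ, gr = fun l => if l < r then β l else q + s := ⟨_, rfl⟩
  have hgl : ∀ l < r, gr l = β l := fun l hl => by rw [hgr]; exact if_pos hl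
  have hgrr : gr r = q + s := by rw [hgr]; exact if_neg (lt_irrefl r)
  obtain ⟨φ, hφ, hbas⟩ := hM S hmem c w gr γ hinj hw.le hγ
    (fun l hl => by
      rcases Nat.lt_or_ge l r with h1 | h1
      · rw [hgl l h1]
        exact hβw l h1
      · have : l = r := by omega
        rw [this, hgrr]
        linarith)
    (fun l hl => by
      rcases Nat.lt_or_ge l r with h1 | h1
      · rw [hgl l h1]
        exact hγw.trans (hβw l h1)
      · have : l = r := by omega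
        rw [this, hgrr]
        linarith)
    (fun l l' hl hl' => by
      rcases Nat.lt_or_ge l' r with h1 | h1
      · rw [hgl l (by omega), hgl l' h1]
        exact hsrt l l' hl h1
      · have e1 : l' = r := by omega
        rw [e1, hgrr]
        rcases Nat.lt_or_ge l r with h2 | h2
        · rw [hgl l h2]
          have := hgap l h2
          linarith
        · have e2 : l = r := by omega
          rw [e2, hgrr])
    (fun l hl => by
      rw [hgl l hl, hgrr]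
      exact hgap l hl) (by rw [hgrr]; exact hwγ) (by rw [hgrr]; exact hqs)
    (fun ρ hρ => by
      have e1 : ∑ l ∈ range r, (1 - gr l) = ∑ l ∈ range r, (1 - β l) :=
        Finset.sum_congr rfl fun l hl => by rw [hgl l (mem_range.1 hl)]
      rw [e1]
      exact hex ρ hρ) δ hδ
  -- the losses
  obtain ⟨ε, hε⟩ : ∃ ε : ℝ, ε = min (φ / 8) (δ / 8) := ⟨_, rfl⟩
  have hε0 : 0 < ε := by rw [hε]; exact lt_min (by positivity) (by positivity)
  have hε1 : ε ≤ φ / 8 := by rw [hε]; exact min_le_left _ _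
  have hε2 : ε ≤ δ / 8 := by rw [hε]; exact min_le_right _ _
  obtain ⟨K₁, hK₁, hob⟩ := hown ε hε0
  have hmb := bas_ev hbas (inv_pos.2 hK₁)
  obtain ⟨J₁, hJ₁⟩ := exists_nat_ge (8 / φ)
  obtain ⟨J₂, hJ₂⟩ := exists_nat_ge (8 / δ)
  have hK'0 : (0 : ℝ) < K' := by exact_mod_cast hK'
  refine ⟨K₁ * (4 * (K' * 5 ^ (m + 1))), by positivity, Bas.mono (max J₁ J₂) (hob.and hmb) ?_⟩
  rintro J hJ F A ⟨⟨B, e, E, g, G, H, hBA, hPe, he, hE2, hgV, hgN, hchV, hchN⟩, hm3⟩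
  have hJ0 : (0 : ℝ) ≤ J := Nat.cast_nonneg J
  have hJ' : (J₁ : ℝ) ≤ J := by exact_mod_cast (le_max_left _ _).trans hJ
  have e1 : 8 / φ ≤ J := hJ₁.trans hJ'
  rw [div_le_iff₀ hφ] at e1
  have hJ'' : (J₂ : ℝ) ≤ J := by exact_mod_cast (le_max_right _ _).trans hJ
  have e2 : 8 / δ ≤ J := hJ₂.trans hJ''
  rw [div_le_iff₀ hδ] at e2
  obtain ⟨sgW, hsgW⟩ : ∃ sgW, sgW = ⌊s * J⌋₊ := ⟨_, rfl⟩
  have hsgW1 : (sgW : ℝ) ≤ s * J := by
    rw [hsgW]
    exact Nat.floor_le (mul_nonneg hs hJ0)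
  have hsgW2 : s * J < sgW + 1 := by
    rw [hsgW]
    exact Nat.lt_floor_add_one _
  obtain ⟨g', hg'⟩ : ∃ g' : ℕ → ℕ, g' = Function.update g r (g r + sgW) := ⟨_, rfl⟩
  have hg'l : ∀ l, l ≠ r → g' l = g l := fun l hl => by
    rw [hg']
    exact Function.update_of_ne hl _ _
  have hg'r : g' r = g r + sgW := by
    rw [hg']
    exact Function.update_self _ _ _
  obtain ⟨e', he'⟩ : ∃ e', e' = e + ⌈3 * ε * J + 1⌉₊ := ⟨_, rfl⟩
  have he'1 : 3 * ε * J + 1 ≤ e' := by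
    rw [he']
    push_cast
    have := Nat.le_ceil (3 * ε * (J : ℝ) + 1)
    have : (0 : ℝ) ≤ e := Nat.cast_nonneg e
    linarith
  have hεJ : ε * (J : ℝ) ≤ φ / 8 * J := mul_le_mul_of_nonneg_right hε1 hJ0
  have he'2 : (e' : ℝ) ≤ φ * J := by
    rw [he']
    push_cast
    have h1 := (Nat.ceil_lt_add_one (show 0 ≤ 3 * ε * (J : ℝ) + 1 by positivity)).le
    linarith
  have he'3 : (e' : ℝ) ≤ δ * J := by
    rw [he']
    push_cast
    have h1 := (Nat.ceil_lt_add_one (show 0 ≤ 3 * ε * (J : ℝ) + 1 by positivity)).le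
    have h2 : ε * (J : ℝ) ≤ δ / 8 * J := mul_le_mul_of_nonneg_right hε2 hJ0
    linarith
  have hnbx : ∀ {y : PtT F} {t : ℝ} {b : Option (Fin m) → ℝ},
      NBx c (G y) g' ⌊w * J⌋₊ t r b → NBx c (G y) g ⌊w * J⌋₊ t r b := by
    intro y t b hb
    refine ⟨hb.1, fun l hl => ?_⟩
    have h1 := hb.2 l hl
    rwa [hg'l l (by omega)] at h1
  have hpw : (2 : ℝ) ^ sgW / 2 ^ g' r = 1 / 2 ^ g r := by
    rw [hg'r, pow_add, div_eq_div_iff (by positivity) (by positivity)]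
    ring
  have hEj : ∀ j ≤ r, E + g j ≤ sgW + e' + g r := by
    intro j hj
    have h2 : ((E + g j : ℕ) : ℝ) ≤ ((sgW + e' + g r : ℕ) : ℝ) := by
      push_cast
      have h3 := (abs_le.1 hgN).1
      rcases Nat.lt_or_ge j r with h5 | h5
      · have h6 := (abs_le.1 (hgV j h5)).2
        have h7 := mul_le_mul_of_nonneg_right (hE' j h5) hJ0
        linarith
      · have e2 : j = r := by omega
        rw [e2]
        have h7 := mul_le_mul_of_nonneg_right hE hJ0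
        linarith
    exact_mod_cast h2
  have hlip : ∀ l < r, E + nlp g l r ≤ sgW + e' := by
    intro l hl
    have h1 : (Finset.Icc l r).sup g ≤ sgW + e' + g r - E := by
      refine Finset.sup_le fun j hj => ?_
      rw [Finset.mem_Icc] at hj
      have h3 := hEj j hj.2
      omega
    have h2 : g r ≤ (Finset.Icc l r).sup g :=
      Finset.le_sup (f := g) (Finset.mem_Icc.2 ⟨hl.le, le_rfl⟩)
    have h5 := hEj r le_rfl
    unfold nlp
    omega
  obtain ⟨g₂, g'', B', L, V, z, z', Pv, Qv, T, kf, a1, a2, a3, a4, a5, a6, a7, a8, a9, a10, a11,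
    a12, a13⟩ := hm3 B hBA (by
      rw [inv_mul_le_iff₀ hK₁]
      exact hPe) e' sgW g' (fun _ => D) G H (fun l hl => by
      rcases Nat.lt_or_ge l r with h1 | h1
      · rw [hg'l l (by omega), hgl l h1]
        have := hgV l h1
        linarith
      · have : l = r := by omega
        rw [this, hg'r, hgrr]
        push_cast
        have h2 := abs_le.1 hgN
        rw [abs_le]
        constructor <;> linarith [h2.1, h2.2]) he'2 (fun _ _ => le_rfl)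
      ((hchV.mono le_rfl (fun _ => le_rfl) le_rfl (by rw [he']; omega)).cg fun l hl =>
        (hg'l l (by omega)).symm) (fun ω hω => by
        rw [hpw]
        exact hchN.pos ω hω r (Nat.lt_succ_self r)) (fun ω hω b hb => by
        rw [hpw]
        exact hchN.agr ω hω r (Nat.lt_succ_self r) b (hnbx hb)) (fun ω hω b hb l hl => by
        refine (hchN.lip ω hω r (Nat.lt_succ_self r) b (hnbx hb) l hl).trans ?_
        rw [← pow_add]
        exact pow_le_pow_right₀ one_le_two ((hlip l hl).trans (by omega)))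
  refine ⟨B', e', E, ⌊δ * J⌋₊, g, g'', g₂, L, G, H, V, z, z', Pv, Qv, T, kf,
    fun ω hω => hBA ω (a8 ω hω), ?_, ?_, ?_⟩
  · calc Pe F.p A ≤ K₁ * Pe F.p B := hPe
      _ ≤ K₁ * (4 * (K' * 5 ^ (m + 1)) * Pe F.p B') := mul_le_mul_of_nonneg_left a9 hK₁.le
      _ = _ := by ring
  · have hδε : ε * (J : ℝ) ≤ δ * J := mul_le_mul_of_nonneg_right (by linarith) hJ0
    refine ⟨he'3, hE2.trans ?_, Nat.floor_le (by positivity), fun l hl =>
      (hgV l hl).trans hδε, hgN.trans hδε, fun l hl => ?_, ?_, fun l hl => ?_, a5, ?_, a7, a10,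
      a11, by rw [← hsgW]; exact hlip⟩
    · linarith
    · rw [a1 l hl, hg'l l (by omega)]
    · rw [← hsgW, ← hg'r]
      exact a2
    · have h1 := a4 l hl
      have h2 := a3 l hl
      have h3 := hg'l l (by omega)
      omega
    · rw [hgrr] at a6
      exact a6
  · rw [← hsgW]
    refine ⟨(hchV.mono le_rfl (fun _ => le_rfl) le_rfl (by rw [he']; omega)).sub a8,
      hchN.sub a8, a12, fun ω hω => (a13 ω hω).1, fun ω hω => ?_,
      fun ω hω => (a13 ω hω).2.2.1, fun ω hω => ?_⟩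
    · exact Nat.le_floor (a13 ω hω).2.1
    · rw [← hg']
      exact (a13 ω hω).2.2.2

end Pool.JPN
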