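import Pool.Agent.H53.HV.Own3

/-!
# Labels of a coordinate over a list

`att_cap`: `Pool.CHT.att_rec` with a precision below the threshold, with the numbers. `tgp_cap`: the
labels of `c r` over the list, with the gradients of the system. `tgp_near`: the same in an order
which is greedy up to a slack, with smaller gradients.
-/

set_option autoImplicit false

namespace Pool.JPN

open Finset Real MvPolynomial
open Pool.Agent.H49.Ent Pool.Agent.H32.Dense Pool.STK Pool.KA Pool.KSAT Pool.K2S Pool.PB Pool.S6C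
open Pool.GEN
open Pool.LBT (ThrOf)
open Pool.LEV (Law)
open Pool.CHT (TmH chsys bet tau Up1 Rc Pts Ptq gpt_of bas_ev Csl big side_le cht_chN lipE
  ch_slope' Jat jatt)
open Pool.JTN (TgP jatn_pts)
open Pool.FRN (Wgd UpA wgd_dense)

variable {m J : ℕ} {θ : ℝ} {S : PCl m} {P : List (Fin m) × Fin m → ℝ → ℝ → ℝ}

/-- **The labels of the threshold with the radius and the window of the point**, with a precision `Q`
below the threshold, and their numbers. -/
theorem att_cap (hP : ThrOf (chsys m θ) S P) (hθ : 0 < θ) (hS : TmH S) {c : ℕ → Fin m} {l : ℕ}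
    (hc : Set.InjOn c (Set.Iio (l + 1))) {a w : ℝ} (hw : 0 < w) (hwa : w ≤ a) (ha : a < 1)
    (hrc : ∀ j < l, Rc (bet P c j) a w) (hv : ∀ j < l, bet P c j a w + θ * w < 1) {Q : ℝ}
    (haQ : a ≤ Q) (hQb : Q ≤ bet P c l a w) (hQ1 : Q + θ * w < 1) {h₂ : ℝ} (h2 : 0 < h₂) :
    ∃ D : ℕ, Bas S (fun J F A => ∃ B : F.Ω → Prop, Sub B A ∧
      Pe F.p A ≤ 2 * Pe F.p B ∧ ∃ (e' : ℕ) (g' : ℕ → ℕ), g' l = ⌊(Q - h₂) * J⌋₊ ∧
        (e' : ℝ) ≤ (θ * w + h₂) * J ∧ (∀ j < l, (g' j : ℝ) ≤ (bet P c j a w + h₂) * J) ∧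
        ChN F c (l + 1) (fun _ => D) ⌊a * J⌋₊ ⌊w * J⌋₊ e' g' B) := by
  have hb0 : ∀ j, a ≤ bet P c j a w := fun j =>
    hP.low ((List.range j).map c, c j) a w hw.le hwa ha.le
  have ha0 : 0 < a := hw.trans_le hwa
  obtain ⟨h, hh⟩ : ∃ h : ℝ, h = min h₂ a := ⟨_, rfl⟩
  have hh0 : 0 < h := by rw [hh]; exact lt_min h2 ha0
  have hh1 : h ≤ h₂ := by rw [hh]; exact min_le_left _ _
  have hh2 : h ≤ a := by rw [hh]; exact min_le_right _ _
  obtain ⟨K, hK⟩ := hP.att ((List.range l).map c, c l) a w (h / 2) hw hwa ha.le (half_pos hh0) (by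
    have h3 : a ≤ P ((List.range l).map c, c l) a w := hb0 l
    linarith)
  -- the gap
  obtain ⟨σ, hσ, hσj, hσQ, hσh⟩ : ∃ σ : ℝ, 0 < σ ∧ (∀ j < l, bet P c j a w + θ * w + 3 * σ ≤ 1) ∧
      Q + θ * w + 3 * σ ≤ 1 ∧ 2 * σ ≤ h₂ := by
    obtain ⟨ff, hff⟩ : ∃ ff : Option ℕ → ℝ, ff = fun j => j.elim (1 - (Q + θ * w))
      (fun j => 1 - (bet P c j a w + θ * w)) := ⟨_, rfl⟩
    have hf0 : ff none = 1 - (Q + θ * w) := by rw [hff]; rfl
    have hf1 : ∀ j, ff (some j) = 1 - (bet P c j a w + θ * w) := fun j => by rw [hff]; rfl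
    obtain ⟨j₀, hj₀, hmin⟩ := Finset.exists_min_image (insert none ((range l).image some)) ff
      ⟨none, Finset.mem_insert_self _ _⟩
    obtain ⟨x, hx⟩ : ∃ x : ℝ, x = ff j₀ := ⟨_, rfl⟩
    have hx0 : 0 < x := by
      rcases j₀ with _ | j
      · rw [hx, hf0]
        linarith
      · rw [hx, hf1]
        have h3 : some j ∈ (range l).image some := by
          rcases Finset.mem_insert.1 hj₀ with h4 | h4
          · exact absurd h4 (by simp)
          · exact h4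
        obtain ⟨j', h4, h5⟩ := Finset.mem_image.1 h3
        have h6 : j' = j := Option.some.inj h5
        subst h6
        have := hv j' (mem_range.1 h4)
        linarith
    refine ⟨min (x / 3) (h₂ / 2), lt_min (by positivity) (by positivity), fun j hj => ?_, ?_, ?_⟩
    · have h3 := hmin (some j) (Finset.mem_insert_of_mem (Finset.mem_image.2
        ⟨j, mem_range.2 hj, rfl⟩))
      rw [← hx, hf1] at h3
      have h5 := min_le_left (x / 3) (h₂ / 2)
      linarith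
    · have h3 := hmin none (Finset.mem_insert_self _ _)
      rw [← hx, hf0] at h3
      have h5 := min_le_left (x / 3) (h₂ / 2)
      linarith
    · have h5 := min_le_right (x / 3) (h₂ / 2)
      linarith
  obtain ⟨K₁, hK₁⟩ : ∃ K₁, K₁ = max K 1 := ⟨_, rfl⟩
  obtain ⟨C₁, c₀, hC₁, hslope⟩ := ch_slope' m (l + 1) (fun _ => K₁) (fun _ => by
    rw [hK₁]; exact le_max_right _ _)
  have hlog : 0 < Real.log 2 := Real.log_pos (by norm_num)
  have hC0 : 0 < C₁ := by linarith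
  obtain ⟨ε, hε⟩ : ∃ ε : ℝ, ε = min (h * Real.log 2 / (8 * C₁ * (l + 2)))
    ((1 - w) * Real.log 2 / (2 * C₁)) := ⟨_, rfl⟩
  have hw1 : w < 1 := hwa.trans_lt ha
  have hε0 : 0 < ε := by
    rw [hε]
    refine lt_min (by positivity) (div_pos (mul_pos (by linarith) hlog) (by positivity))
  have hε1 : ε * (8 * C₁ * (l + 2)) ≤ h * Real.log 2 := by
    have := min_le_left (h * Real.log 2 / (8 * C₁ * (l + 2)))
      ((1 - w) * Real.log 2 / (2 * C₁))
    rw [← hε, le_div_iff₀ (by positivity)] at this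
    exact this
  have hε2 : ε * (2 * C₁) ≤ (1 - w) * Real.log 2 := by
    have := min_le_right (h * Real.log 2 / (8 * C₁ * (l + 2)))
      ((1 - w) * Real.log 2 / (2 * C₁))
    rw [← hε, le_div_iff₀ (by positivity)] at this
    exact this
  obtain ⟨J₁, hJ₁⟩ := big ((l + 2) * (C₁ / Real.log 2 + 2) + 2) (show 0 < h / 8 by positivity)
  obtain ⟨J₂, hJ₂⟩ := big (2 * C₁) (show 0 < (1 - w) * Real.log 2 from mul_pos (by linarith) hlog)
  obtain ⟨J₃, hJ₃⟩ := big (c₀ : ℝ) hσ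
  have hside := Bas.all (S := S) l (Φ := fun j J F A => ∀ (a₀ w₀ e₀ : ℕ) (g : ℕ → ℕ),
      w₀ ≤ a₀ → a₀ ≤ ⌊a * J⌋₊ → w₀ ≤ ⌊w * J⌋₊ → e₀ ≤ ⌊θ * w * J⌋₊ → (∀ l ≤ j, g l ≤ J) →
      ChN F c (j + 1) (fun _ => K) a₀ w₀ e₀ g A →
      (g j : ℝ) + ⌊a * J⌋₊ ≤ (bet P c j a w + 2 * σ) * J + a₀) fun j hj =>
    side_le hP c j (fun _ => K) hw hwa hθ (hrc j (by omega)) hσ (by
      have := hσj j (by omega)
      have h3 : 0 ≤ θ * w := by positivity
      linarith)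
  have hpos : Bas S (fun _ F A => 0 < Pe F.p A) := ⟨1, one_pos, 0, fun J _ F A hA =>
    hS.1 1 J F A hA⟩
  refine ⟨K₁, ?_⟩
  refine Bas.mono (max (max J₁ J₂) J₃) (((hK.and hside).and (hS.2 ε hε0)).and hpos) ?_
  rintro J hJ F A ⟨⟨⟨hT, hsd⟩, htm⟩, hA⟩
  have hJ0 : (0 : ℝ) ≤ J := Nat.cast_nonneg J
  have b1 := hJ₁ J (((le_max_left _ _).trans (le_max_left _ _)).trans hJ)
  have b2 := hJ₂ J (((le_max_right _ _).trans (le_max_left _ _)).trans hJ)
  have b3 := hJ₃ J ((le_max_right _ _).trans hJ)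
  obtain ⟨a₀, w₀, g₀, k1, k2, k3, k4₀, k5₀, k6₀⟩ := cht_chN hT
  have ewJ : ⌊w * J⌋₊ ≤ J := Pool.LBT.fl_le' hw1.le J
  have elip : lipE θ K ⌊w * J⌋₊ J ≤ ⌊θ * w * J⌋₊ := by
    unfold lipE
    refine Nat.floor_le_floor ?_
    rw [abs_of_pos hθ]
    have h3 : (⌊w * J⌋₊ : ℝ) ≤ w * J := Nat.floor_le (by positivity)
    have h4 : 0 ≤ (J : ℝ) / (K + 1) := by positivity
    have h5 : θ * ⌊w * J⌋₊ ≤ θ * (w * J) := mul_le_mul_of_nonneg_left h3 hθ.le
    linarith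
  have elip' : (lipE θ K ⌊w * J⌋₊ J : ℝ) ≤ θ * w * J :=
    (Nat.cast_le.2 elip).trans (Nat.floor_le (by positivity))
  have hθw : 0 < θ * w := by positivity
  -- the precision of the target
  obtain ⟨Pq, hPq⟩ : ∃ Pq : ℕ, Pq = ⌊(Q - h / 2) * J⌋₊ := ⟨_, rfl⟩
  have hPq1 : (Pq : ℝ) ≤ Q * J := by
    rw [hPq]
    refine (Nat.floor_le (mul_nonneg (by linarith) hJ0)).trans ?_
    exact mul_le_mul_of_nonneg_right (by linarith) hJ0
  have hPqb : Pq ≤ ⌊(bet P c l a w - h / 2) * J⌋₊ := by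
    rw [hPq]
    exact Nat.floor_le_floor (mul_le_mul_of_nonneg_right (by linarith) hJ0)
  obtain ⟨g, hg'⟩ : ∃ g : ℕ → ℕ, g = fun j => if j = l then Pq + a₀ - ⌊a * J⌋₊ else g₀ j :=
    ⟨_, rfl⟩
  have hgl : g l = Pq + a₀ - ⌊a * J⌋₊ := by rw [hg']; exact if_pos rfl
  have hgj : ∀ j < l, g j = g₀ j := fun j hj => by rw [hg']; exact if_neg (by omega)
  have k4₁ : ⌊(bet P c l a w - h / 2) * J⌋₊ + a₀ ≤ g₀ l + ⌊a * J⌋₊ := k4₀
  have k6 : ChN F c (l + 1) (fun _ => K) a₀ w₀ (lipE θ K ⌊w * J⌋₊ J) g A :=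
    ChN.last k6₀ (fun j hj => hgj j (by omega)) fun j hj => by
      have : j = l := by omega
      subst this
      rw [hgl]
      omega
  have k4 : Pq + a₀ ≤ g l + ⌊a * J⌋₊ := by
    rw [hgl]
    omega
  have hg : ∀ j < l, (g j : ℝ) + ⌊a * J⌋₊ ≤ (bet P c j a w + 2 * σ) * J + a₀ := fun j hj => by
    rw [hgj j hj]
    exact hsd j hj a₀ w₀ (lipE θ K ⌊w * J⌋₊ J) g₀ k1 k2 k3 elip (fun l' hl' => k5₀ l' (by omega))
      (k6₀.mono (by omega) (fun _ _ => le_rfl) le_rfl le_rfl (k3.trans ewJ) le_rfl)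
  have hgb : ∀ j < l, (g j : ℝ) ≤ (bet P c j a w + h₂) * J := by
    intro j hj
    have h7 := hg j hj
    have h8 : (a₀ : ℝ) ≤ ⌊a * J⌋₊ := by exact_mod_cast k2
    have h9 : (bet P c j a w + 2 * σ) * J ≤ (bet P c j a w + h₂) * J :=
      mul_le_mul_of_nonneg_right (by linarith) hJ0
    linarith
  -- the number of digits
  obtain ⟨u, hu⟩ : ∃ u : ℕ, u = ⌈C₁ * (ε * J + 1) / Real.log 2⌉₊ := ⟨_, rfl⟩
  have hu1 : C₁ * (ε * J + 1) ≤ u * Real.log 2 := by
    have := Nat.le_ceil (C₁ * (ε * J + 1) / Real.log 2)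
    rw [← hu, div_le_iff₀ hlog] at this
    exact this
  have hu2 : (u : ℝ) * Real.log 2 ≤ C₁ * (ε * J + 1) + Real.log 2 := by
    have := (Nat.ceil_lt_add_one (show 0 ≤ C₁ * (ε * J + 1) / Real.log 2 by positivity)).le
    rw [← hu] at this
    have h3 := mul_le_mul_of_nonneg_right this hlog.le
    rw [add_mul, div_mul_cancel₀ _ hlog.ne', one_mul] at h3
    exact h3
  have hu3 : (((l + 1) * u + 1 : ℕ) : ℝ) + 1 ≤ h / 4 * J := by
    have h3 : ((l : ℝ) + 2) * (u * Real.log 2) ≤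
        (l + 2) * (C₁ * (ε * J + 1) + Real.log 2) := mul_le_mul_of_nonneg_left hu2 (by positivity)
    have h4 : (l + 2) * C₁ * (ε * J) ≤ h / 8 * J * Real.log 2 := by
      have := mul_le_mul_of_nonneg_right hε1 hJ0
      linarith
    have h6 : ((l : ℝ) + 2) * (C₁ / Real.log 2 + 1) * Real.log 2 =
        (l + 2) * (C₁ + Real.log 2) := by field_simp
    have h5 : ((l : ℝ) + 2) * u * Real.log 2 ≤
        (h / 8 * J + (l + 2) * (C₁ / Real.log 2 + 1)) * Real.log 2 := by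
      calc ((l : ℝ) + 2) * u * Real.log 2 = (l + 2) * (u * Real.log 2) := by ring
        _ ≤ (l + 2) * (C₁ * (ε * J + 1) + Real.log 2) := h3
        _ = (l + 2) * C₁ * (ε * J) + (l + 2) * (C₁ + Real.log 2) := by ring
        _ ≤ h / 8 * J * Real.log 2 + (l + 2) * (C₁ + Real.log 2) := by linarith
        _ = _ := by rw [← h6]; ring
    have h7 := le_of_mul_le_mul_right h5 hlog
    have h8 : ((l : ℝ) + 1) * u ≤ (l + 2) * u :=
      mul_le_mul_of_nonneg_right (by linarith) (Nat.cast_nonneg u)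
    push_cast
    linarith
  have hQ0 : ⌊(Q - h) * J⌋₊ + ((l + 1) * u + 1) ≤ Pq := by
    rw [hPq]
    have h3 := Nat.lt_floor_add_one ((Q - h / 2) * (J : ℝ))
    have h6 := Nat.floor_le (show 0 ≤ (Q - h) * (J : ℝ) from mul_nonneg (by linarith) hJ0)
    have h7 : ((⌊(Q - h) * J⌋₊ + ((l + 1) * u + 1) : ℕ) : ℝ) ≤ ((⌊(Q - h / 2) * J⌋₊ : ℕ) : ℝ) := by
      have h8 : 0 ≤ h * (J : ℝ) := by positivity
      push_cast at hu3 ⊢
      linarith
    exact_mod_cast h7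
  have hQ : ⌊(Q - h₂) * J⌋₊ ≤ ⌊(Q - h) * J⌋₊ :=
    Nat.floor_le_floor (mul_le_mul_of_nonneg_right (by linarith) hJ0)
  have hJc : (c₀ : ℝ) ≤ h₂ * J := by
    have := mul_le_mul_of_nonneg_right (show σ ≤ h₂ by linarith) hJ0
    linarith
  -- from a chain with the radius of the point
  have fin : ∀ (B : F.Ω → Prop) (e' : ℕ) (g' : ℕ → ℕ), Sub B A → Pe F.p A ≤ 2 * Pe F.p B →
      ⌊(Q - h) * J⌋₊ ≤ g' l → (e' : ℝ) ≤ (θ * w + h₂) * J →
      (∀ j < l, (g' j : ℝ) ≤ (bet P c j a w + h₂) * J) →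
      ChN F c (l + 1) (fun _ => K₁) ⌊a * J⌋₊ w₀ e' g' B →
      ∃ B : F.Ω → Prop, Sub B A ∧ Pe F.p A ≤ 2 * Pe F.p B ∧
        ∃ (e' : ℕ) (g' : ℕ → ℕ), g' l = ⌊(Q - h₂) * J⌋₊ ∧ (e' : ℝ) ≤ (θ * w + h₂) * J ∧
          (∀ j < l, (g' j : ℝ) ≤ (bet P c j a w + h₂) * J) ∧
          ChN F c (l + 1) (fun _ => K₁) ⌊a * J⌋₊ ⌊w * J⌋₊ e' g' B := by
    intro B e' g' h3 h4 h5 h8 h9 h6
    refine ⟨B, h3, h4, e', fun j => if j = l then ⌊(Q - h₂) * J⌋₊ else g' j,
      if_pos rfl, h8, fun j hj => ?_, ?_⟩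
    · show (((if j = l then ⌊(Q - h₂) * J⌋₊ else g' j : ℕ)) : ℝ) ≤ _
      rw [if_neg (by omega)]
      exact h9 j hj
    refine ChN.last (g := g') (h6.mono le_rfl (fun _ _ => le_rfl) le_rfl k3 ewJ le_rfl)
      (fun j hj => if_neg (by omega)) fun j hj => ?_
    have : j = l := by omega
    subst this
    show (if j = j then _ else g' j) ≤ g' j
    rw [if_pos rfl]
    exact hQ.trans h5
  obtain ⟨v, hv'⟩ : ∃ v, v = ⌊a * J⌋₊ - a₀ := ⟨_, rfl⟩
  have hav : a₀ + v = ⌊a * J⌋₊ := by omega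
  rcases Nat.lt_or_ge v ((l + 1) * u + 1) with hvu | hvu
  · refine fin A (lipE θ K ⌊w * J⌋₊ J) g (fun _ h => h) ?_ (by omega) ?_ hgb ?_
    · have := Pe_nonneg F.isLaw A
      linarith
    · have := mul_nonneg h2.le hJ0
      linarith
    · exact k6.mono le_rfl (fun _ _ => by rw [hK₁]; exact le_max_left _ _) k2 le_rfl
        (k3.trans ewJ) le_rfl
  · obtain ⟨G, H, h6⟩ := k6.mono (K' := fun _ => K₁) le_rfl
      (fun _ _ => by rw [hK₁]; exact le_max_left _ _) le_rfl le_rfl (k3.trans ewJ) le_rfl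
    have haJ : (⌊a * J⌋₊ : ℝ) = a₀ + v := by rw [← hav]; push_cast; ring
    obtain ⟨B, l1, l2, l3, -⟩ := hslope J F c a₀ w₀ (lipE θ K ⌊w * J⌋₊ J) v u g A G H (ε * J) hA hc
      k1 (k3.trans ewJ) (fun j hj => by
        rcases Nat.lt_or_ge j l with hj' | hj'
        · have h7 := hg j hj'
          have h8 := hσj j hj'
          have h10 := mul_le_mul_of_nonneg_right h8 hJ0
          have h11 : ((lipE θ K ⌊w * J⌋₊ J + g j + v + c₀ : ℕ) : ℝ) ≤ (J : ℝ) := by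
            push_cast
            rw [haJ] at h7
            linarith
          exact_mod_cast h11
        · have e1 : j = l := by omega
          subst e1
          have h10 := mul_le_mul_of_nonneg_right hσQ hJ0
          have h12 : ((g j + v : ℕ) : ℝ) ≤ Q * J := by
            have h13 : g j + v ≤ max Pq ⌊a * J⌋₊ := by
              rw [hgl]
              omega
            have h14 : ((max Pq ⌊a * J⌋₊ : ℕ) : ℝ) ≤ Q * J := by
              rw [Nat.cast_max]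
              refine max_le hPq1 ?_
              refine (Nat.floor_le (by positivity)).trans ?_
              exact mul_le_mul_of_nonneg_right haQ hJ0
            exact (by exact_mod_cast h13 : ((g j + v : ℕ) : ℝ) ≤ ((max Pq ⌊a * J⌋₊ : ℕ) : ℝ)).trans
              h14
          have h11 : ((lipE θ K ⌊w * J⌋₊ J + g j + v + c₀ : ℕ) : ℝ) ≤ (J : ℝ) := by
            push_cast at h12 ⊢
            linarith
          exact_mod_cast h11) hvu (by positivity) (htm hA) (by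
        have h7 : (w₀ : ℝ) ≤ w * J := (Nat.cast_le.2 k3).trans (Nat.floor_le (by positivity))
        have h8 := mul_le_mul_of_nonneg_right hε2 hJ0
        have h9 := mul_le_mul_of_nonneg_right h7 hlog.le
        linarith) (by
        have h7 : (2 : ℝ) ^ u = Real.exp (u * Real.log 2) := by
          rw [mul_comm, Real.exp_mul, Real.exp_log (by norm_num)]
          simp
        rw [h7]
        exact Real.exp_le_exp.2 hu1) h6
    rw [hav] at l3
    refine fin B _ _ l1 (by linarith) ?_ ?_ (fun j hj => ?_) ⟨_, _, l3⟩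
    · show _ ≤ g l + v - (l + 1) * u
      omega
    · push_cast
      linarith
    · have h7 := hg j hj
      rw [haJ] at h7
      have h8 : ((g j + v - (j + 1) * u : ℕ) : ℝ) ≤ ((g j + v : ℕ) : ℝ) := by
        exact_mod_cast Nat.sub_le _ _
      have h9 : (bet P c j a w + 2 * σ) * J ≤ (bet P c j a w + h₂) * J :=
        mul_le_mul_of_nonneg_right (by linarith) hJ0
      push_cast at h8
      show ((g j + v - (j + 1) * u : ℕ) : ℝ) ≤ _
      linarith

/-- **The labels of `c r` over the list**, with the gradients of the system. -/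
theorem tgp_cap (hP : ThrOf (chsys m θ) S P) (hθ : 0 < θ) (hS : TmH S) {c : ℕ → Fin m} {r : ℕ}
    (hc : Set.InjOn c (Set.Iio (r + 1))) {w : ℝ} (hw : 0 < w) (hw1 : w < 1)
    (hrc : ∀ j < r, Rc (bet P c j) w w) (hv : ∀ j < r, bet P c j w w + θ * w < 1) {Q sg : ℝ}
    (hwQ : w ≤ Q) (hQb : Q ≤ bet P c r w w) (hQ1 : Q + θ * w < 1)
    (hsg : ∀ j < r, θ * w + bet P c j w w ≤ sg) (hsgQ : θ * w + Q ≤ sg) :
    TgP S c r Q w w sg := by
  intro ε hε
  obtain ⟨D, hb⟩ := att_cap hP hθ hS hc hw le_rfl hw1 hrc hv hwQ hQb hQ1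
    (h₂ := ε / 2) (by positivity)
  obtain ⟨J₁, hJ₁⟩ := big (1 : ℝ) (show 0 < ε / 2 by positivity)
  refine ⟨D, 2, two_pos, hb.mono J₁ ?_⟩
  rintro J hJ F A ⟨B, h1, h2, e', g', h3, h4, h5, h6⟩
  have hJ0 : (0 : ℝ) ≤ J := Nat.cast_nonneg J
  have b1 := hJ₁ J hJ
  have hgr : (g' r : ℝ) ≤ Q * J := by
    rw [h3]
    rcases le_or_gt 0 (Q - ε / 2) with h7 | h7
    · refine (Nat.floor_le (mul_nonneg h7 hJ0)).trans ?_
      exact mul_le_mul_of_nonneg_right (by linarith) hJ0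
    · rw [Nat.floor_of_nonpos (mul_nonpos_of_nonpos_of_nonneg h7.le hJ0), Nat.cast_zero]
      exact mul_nonneg (by linarith) hJ0
  refine ⟨B, c, r, e', g', h1, h2, le_rfl, hc.mono fun x (hx : x < r) => by
    show x < r + 1
    omega, fun l hl => ⟨l, hl, rfl⟩, rfl, h6, ?_, fun l hl => ?_⟩
  · rw [h3]
    have := Nat.lt_floor_add_one ((Q - ε / 2) * (J : ℝ))
    linarith
  · push_cast
    rcases hl.lt_or_eq with h7 | rfl
    · have h8 := h5 l h7
      have h9 := mul_le_mul_of_nonneg_right (hsg l h7) hJ0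
      linarith
    · have h9 := mul_le_mul_of_nonneg_right hsgQ hJ0
      have h10 : 0 ≤ ε * (J : ℝ) := by positivity
      linarith

/-- **The labels of `c r` over the list**, in an order which is greedy up to a slack. -/
theorem tgp_near (hP : ThrOf (chsys m θ) S P) (hθ : 0 < θ) (hS : TmH S) {c : ℕ → Fin m} {r : ℕ}
    (hc : Set.InjOn c (Set.Iio (r + 1))) {w vs e₀ e sg : ℝ} (hw : 0 < w) (hw1 : w < 1)
    (hvs : 0 ≤ vs) (h : Pts S P θ c (r + 1) 1 (fun _ => w) (fun _ => w) vs e₀)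
    (he : Csl (r + 1) (r + 1) * vs < e) (he₀ : e ≤ e₀)
    (hsg : ∀ j ≤ r, e + bet P c j w w ≤ sg) : TgP S c r (bet P c r w w) w w sg := by
  have he0 : 0 < e := lt_of_le_of_lt (mul_nonneg (Nat.cast_nonneg _) hvs) he
  intro ε hε
  obtain ⟨K, d, δ, K₁, hK₁, -, hd, -, hj⟩ := jatt hP hθ hS hc hvs h (r + 1) le_rfl
    (fun _ _ => ε / 2) (fun _ _ => by positivity) e he he₀
  obtain ⟨J₁, hJ₁⟩ := big (1 : ℝ) (show 0 < ε / 2 by positivity)
  refine ⟨∑ l ∈ range (r + 1), K l, K₁, hK₁, hj.mono J₁ ?_⟩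
  rintro J hJ F A ⟨B, G, H, h1, h2, hM⟩
  have hJ0 : (0 : ℝ) ≤ J := Nat.cast_nonneg J
  have b1 := hJ₁ J hJ
  have hb0 : ∀ j, 0 ≤ bet P c j w w := fun j => hw.le.trans (hP.low _ w w hw.le le_rfl hw1.le)
  have hok := hM.ok 0 one_pos
  have hch : ChN F c (r + 1) (fun _ => ∑ l ∈ range (r + 1), K l) ⌊w * (J : ℝ)⌋₊
      ⌊w * (J : ℝ)⌋₊ ⌊e * (J : ℝ)⌋₊ (fun l => ⌊(bet P c l w w - d l) * J⌋₊) B := by
    refine ChN.cls ⟨G 0, H 0, hok⟩ fun i hi => ?_
    exact Finset.single_le_sum (f := K) (fun _ _ => Nat.zero_le _) (mem_range.2 hi)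
  have hgu : ∀ l < r + 1, (⌊(bet P c l w w - d l) * (J : ℝ)⌋₊ : ℝ) ≤ bet P c l w w * J := by
    intro l hl
    have h3 := (hd l hl).1
    rcases le_or_gt 0 (bet P c l w w - d l) with h7 | h7
    · refine (Nat.floor_le (mul_nonneg h7 hJ0)).trans ?_
      exact mul_le_mul_of_nonneg_right (by linarith) hJ0
    · rw [Nat.floor_of_nonpos (mul_nonpos_of_nonpos_of_nonneg h7.le hJ0), Nat.cast_zero]
      exact mul_nonneg (hb0 l) hJ0
  refine ⟨B, c, r, ⌊e * J⌋₊, fun l => ⌊(bet P c l w w - d l) * J⌋₊, h1, h2, le_rfl,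
    hc.mono fun x (hx : x < r) => by
      show x < r + 1
      omega, fun l hl => ⟨l, hl, rfl⟩, rfl, hch, ?_, fun l hl => ?_⟩
  · have h3 : d r ≤ ε / 2 := (hd r (by omega)).2
    have h4 := Nat.lt_floor_add_one ((bet P c r w w - d r) * (J : ℝ))
    have h5 := mul_le_mul_of_nonneg_right h3 hJ0
    show _ ≤ (⌊(bet P c r w w - d r) * (J : ℝ)⌋₊ : ℝ)
    linarith
  · push_cast
    have h3 := hgu l (by omega)
    have h4 := Nat.floor_le (mul_nonneg he0.le hJ0)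
    have h5 := mul_le_mul_of_nonneg_right (hsg l hl) hJ0
    have h10 : 0 ≤ ε * (J : ℝ) := by positivity
    linarith

end Pool.JPN
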